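import Pool.Agent.E8helper59.SD.Order

set_option autoImplicit false

/-!
# Contact representations by rectangles give two linear orders
-/

namespace Pool.Agent.E8helper59.SD

variable {V : Type}

/-- The function `f` separates `a, b` from `c, d`. -/
def Sep (f : V → ℝ) (a b c d : V) : Prop :=
  (f a < f c ∧ f a < f d ∧ f b < f c ∧ f b < f d) ∨ (f c < f a ∧ f c < f b ∧ f d < f a ∧ f d < f b)

/-- A strictly suitable pair: disjoint edges are separated, and every vertex is separated from every
edge which does not contain it. -/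
structure Strict (G : SimpleGraph V) (f g : V → ℝ) : Prop where
  finj : Function.Injective f
  ginj : Function.Injective g
  sep : ∀ a b c d, G.Adj a b → G.Adj c d → a ≠ c → a ≠ d → b ≠ c → b ≠ d →
    Sep f a b c d ∨ Sep g a b c d
  out : ∀ a b w, G.Adj a b → w ≠ a → w ≠ b → Sep f a b w w ∨ Sep g a b w w

/-- The rectangles of `u` and `v` touch along a segment of positive length. -/
def Touch (l r b t : V → ℝ) (u v : V) : Prop :=
  ((r u = l v ∨ r v = l u) ∧ b u < t v ∧ b v < t u) ∨
    ((t u = b v ∨ t v = b u) ∧ l u < r v ∧ l v < r u)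

theorem touch_symm {l r b t : V → ℝ} {u v : V} (h : Touch l r b t u v) : Touch l r b t v u := by
  unfold Touch at *
  rcases h with ⟨h1, h2, h3⟩ | ⟨h1, h2, h3⟩
  · exact Or.inl ⟨h1.symm, h3, h2⟩
  · exact Or.inr ⟨h1.symm, h3, h2⟩

/-- The graph is a spanning subgraph of a contact graph of rectangles. -/
def RectContact (G : SimpleGraph V) : Prop :=
  ∃ l r b t : V → ℝ, Rects l r b t ∧ ∀ u v, G.Adj u v → Touch l r b t u v

section

variable {l r b t f g : V → ℝ}

/-- the properties of the two orders -/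
structure Good (l r b t f g : V → ℝ) : Prop extends Rects l r b t where
  finj : Function.Injective f
  ginj : Function.Injective g
  hf : ∀ u v, u ≠ v → Before l r b t u v → f u < f v
  hg : ∀ u v, u ≠ v → Before b t (fun v => -r v) (fun v => -l v) u v → g u < g v

theorem Good.right (h : Good l r b t f g) {p q : V} (hpq : p ≠ q) (h1 : f p < f q)
    (h2 : g p < g q) : r p ≤ l q := by
  have hx : ¬ Before l r b t q p := fun hb => absurd (h.hf q p hpq.symm hb) (not_lt.2 h1.le)
  have hy : ¬ Before b t (fun v => -r v) (fun v => -l v) q p :=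
    fun hb => absurd (h.hg q p hpq.symm hb) (not_lt.2 h2.le)
  unfold Before at hx hy
  push Not at hx hy
  have e1 := h.lr p; have e2 := h.lr q; have e3 := h.bt p; have e4 := h.bt q
  rcases h.disj p q hpq with h3 | h3 | h3 | h3
  · exact h3
  · rcases le_or_gt (b q) (t p) with h4 | h4
    · have := hy.2 (by linarith)
      linarith
    · have := hx.1 h3 (by linarith)
      linarith
  · have := hx.2 h3
    linarith
  · by_contra hc
    push Not at hc
    have := (hy.1 h3 (by linarith)).2
    linarith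

theorem Good.up (h : Good l r b t f g) {p q : V} (hpq : p ≠ q) (h1 : f q < f p)
    (h2 : g p < g q) : t p ≤ b q := by
  have hx : ¬ Before l r b t p q := fun hb => absurd (h.hf p q hpq hb) (not_lt.2 h1.le)
  have hy : ¬ Before b t (fun v => -r v) (fun v => -l v) q p :=
    fun hb => absurd (h.hg q p hpq.symm hb) (not_lt.2 h2.le)
  unfold Before at hx hy
  push Not at hx hy
  have e1 := h.lr p; have e2 := h.lr q; have e3 := h.bt p; have e4 := h.bt q
  rcases h.disj p q hpq with h3 | h3 | h3 | h3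
  · by_contra hc
    push Not at hc
    have := (hx.1 h3 hc.le).2
    linarith
  · by_contra hc
    push Not at hc
    have := hy.2 (by linarith)
    linarith
  · exact h3
  · rcases le_or_gt (l p) (r q) with h4 | h4
    · have := hx.2 h3
      linarith
    · have := hy.2 (by linarith)
      linarith

/-- comparison of two vertices: one of the four relations -/
theorem Good.total (h : Good l r b t f g) {p q : V} (hpq : p ≠ q) :
    (f p < f q ∧ g p < g q) ∨ (f q < f p ∧ g q < g p) ∨ (f q < f p ∧ g p < g q) ∨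
      (f p < f q ∧ g q < g p) := by
  rcases lt_or_gt_of_ne (h.finj.ne hpq) with h1 | h1 <;>
    rcases lt_or_gt_of_ne (h.ginj.ne hpq) with h2 | h2
  · exact Or.inl ⟨h1, h2⟩
  · exact Or.inr (Or.inr (Or.inr ⟨h1, h2⟩))
  · exact Or.inr (Or.inr (Or.inl ⟨h1, h2⟩))
  · exact Or.inr (Or.inl ⟨h1, h2⟩)

/-- a red edge: `u` is to the left of `v` -/
def Red (l r b t : V → ℝ) (u v : V) : Prop := r u = l v ∧ b u < t v ∧ b v < t u

/-- a blue edge: `u` is below `v` -/
def Blue (l r b t : V → ℝ) (u v : V) : Prop := t u = b v ∧ l u < r v ∧ l v < r u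

theorem Good.red (h : Good l r b t f g) {u v : V} (huv : u ≠ v) (he : Red l r b t u v) :
    f u < f v ∧ g u < g v := by
  obtain ⟨e1, e2, e3⟩ := he
  exact ⟨h.hf u v huv (Or.inl ⟨e1.le, e3.le, Or.inr e3⟩),
    h.hg u v huv (Or.inr ⟨by simp only [neg_le_neg_iff]; exact e1.le, e2.le⟩)⟩

theorem Good.blue (h : Good l r b t f g) {u v : V} (huv : u ≠ v) (he : Blue l r b t u v) :
    f v < f u ∧ g u < g v := by
  obtain ⟨e1, e2, e3⟩ := he
  refine ⟨h.hf v u huv.symm (Or.inr ⟨e1.le, e3.le⟩), h.hg u v huv (Or.inl ⟨e1.le, ?_, Or.inr ?_⟩)⟩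
  · show -r v ≤ -l u
    linarith
  · show -r v < -l u
    linarith

/-- two red edges on the same line, the second one above the first one -/
theorem Good.red_red_aux (h : Good l r b t f g) {u v x y : V} (hux : u ≠ x) (huy : u ≠ y)
    (hvx : v ≠ x) (hvy : v ≠ y) (he : Red l r b t u v) (hf : Red l r b t x y)
    (hX : r u = r x) (hup : f x < f u ∧ g u < g x) (h1 : f u < f y) (h4 : g x < g v) : False := by
  obtain ⟨e1, e2, e3⟩ := he
  obtain ⟨e4, e5, e6⟩ := hf
  have k1 := h.up hux hup.1 hup.2
  have m1 := h.lr u; have m2 := h.lr v; have m3 := h.lr x; have m4 := h.lr y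
  have n1 := h.bt u; have n2 := h.bt v; have n3 := h.bt x; have n4 := h.bt y
  have k2 : t v ≤ b y := by
    rcases h.total hvy with h5 | h5 | h5 | h5
    · have := h.right hvy h5.1 h5.2
      linarith
    · have := h.right hvy.symm h5.1 h5.2
      linarith
    · exact h.up hvy h5.1 h5.2
    · have := h.up hvy.symm h5.1 h5.2
      linarith
  rcases le_or_gt (t u) (b y) with h5 | h5
  · have := h.hf y u huy.symm (Or.inr ⟨h5, by linarith⟩)
    linarith
  · have := h.hg v x hvx (Or.inl ⟨by linarith, by show -r x ≤ -l v; linarith,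
      Or.inl (by linarith)⟩)
    linarith

theorem Good.red_red (h : Good l r b t f g) {u v x y : V} (hux : u ≠ x) (huy : u ≠ y)
    (hvx : v ≠ x) (hvy : v ≠ y) (he : Red l r b t u v) (hf : Red l r b t x y)
    (h1 : f u < f y) (h2 : f x < f v) (h3 : g u < g y) (h4 : g x < g v) : False := by
  have k1 := h.right huy h1 h3
  have k2 := h.right hvx.symm h2 h4
  have hX : r u = r x := by linarith [he.1, hf.1]
  have m1 := h.lr u; have m3 := h.lr x
  rcases h.total hux with h5 | h5 | h5 | h5
  · have := h.right hux h5.1 h5.2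
    linarith
  · have := h.right hux.symm h5.1 h5.2
    linarith
  · exact h.red_red_aux hux huy hvx hvy he hf hX h5 h1 h4
  · exact h.red_red_aux hux.symm hvx.symm huy.symm hvy.symm hf he hX.symm h5 h2 h3

theorem Good.blue_blue_aux (h : Good l r b t f g) {u v x y : V} (hux : u ≠ x) (huy : u ≠ y)
    (hvx : v ≠ x) (hvy : v ≠ y) (he : Blue l r b t u v) (hf : Blue l r b t x y)
    (hX : t u = t x) (hup : f u < f x ∧ g u < g x) (h2 : f y < f u) (h4 : g x < g v) : False := by
  obtain ⟨e1, e2, e3⟩ := he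
  obtain ⟨e4, e5, e6⟩ := hf
  have k1 := h.right hux hup.1 hup.2
  have m1 := h.lr u; have m2 := h.lr v; have m3 := h.lr x; have m4 := h.lr y
  have n1 := h.bt u; have n2 := h.bt v; have n3 := h.bt x; have n4 := h.bt y
  have k2 : r v ≤ l y := by
    rcases h.total hvy with h5 | h5 | h5 | h5
    · exact h.right hvy h5.1 h5.2
    · have := h.right hvy.symm h5.1 h5.2
      linarith
    · have := h.up hvy h5.1 h5.2
      linarith
    · have := h.up hvy.symm h5.1 h5.2
      linarith
  rcases lt_or_ge (r u) (l y) with h5 | h5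
  · have := h.hf u y huy (Or.inl ⟨h5.le, by linarith, Or.inl h5⟩)
    linarith
  · have := h.hg v x hvx (Or.inr ⟨by show -l x ≤ -r v; linarith, by linarith⟩)
    linarith

theorem Good.blue_blue (h : Good l r b t f g) {u v x y : V} (hux : u ≠ x) (huy : u ≠ y)
    (hvx : v ≠ x) (hvy : v ≠ y) (he : Blue l r b t u v) (hf : Blue l r b t x y)
    (h1 : f v < f x) (h2 : f y < f u) (h3 : g u < g y) (h4 : g x < g v) : False := by
  have k1 := h.up huy h2 h3
  have k2 := h.up hvx.symm h1 h4
  have hX : t u = t x := by linarith [he.1, hf.1]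
  have m1 := h.bt u; have m3 := h.bt x
  rcases h.total hux with h5 | h5 | h5 | h5
  · exact h.blue_blue_aux hux huy hvx hvy he hf hX h5 h2 h4
  · exact h.blue_blue_aux hux.symm hvx.symm huy.symm hvy.symm hf he hX.symm h5 h1 h3
  · have := h.up hux h5.1 h5.2
    linarith
  · have := h.up hux.symm h5.1 h5.2
    linarith

theorem Good.red_blue (h : Good l r b t f g) {u v x y : V} (hux : u ≠ x) (huy : u ≠ y)
    (hvx : v ≠ x) (hvy : v ≠ y) (he : Red l r b t u v) (hf : Blue l r b t x y)
    (h1 : f u < f x) (h2 : f y < f v) (h3 : g u < g y) (h4 : g x < g v) : False := by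
  obtain ⟨e1, e2, e3⟩ := he
  obtain ⟨e4, e5, e6⟩ := hf
  have m1 := h.lr u; have m2 := h.lr v; have m3 := h.lr x; have m4 := h.lr y
  have n1 := h.bt u; have n2 := h.bt v; have n3 := h.bt x; have n4 := h.bt y
  rcases h.total hux with h5 | h5 | h5 | h5
  · have k1 := h.right hux h5.1 h5.2
    rcases h.total hvx with h6 | h6 | h6 | h6
    · linarith
    · have := h.right hvx.symm h6.1 h6.2
      linarith
    · linarith
    · have k2 := h.up hvx.symm h6.1 h6.2
      rcases h.total hvy with h7 | h7 | h7 | h7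
      · linarith
      · have := h.right hvy.symm h7.1 h7.2
        linarith
      · have := h.up hvy h7.1 h7.2
        linarith
      · linarith
  · linarith
  · linarith
  · have k1 := h.up hux.symm h5.1 h5.2
    rcases h.total huy with h6 | h6 | h6 | h6
    · have k2 := h.right huy h6.1 h6.2
      rcases h.total hvy with h7 | h7 | h7 | h7
      · linarith
      · have := h.right hvy.symm h7.1 h7.2
        linarith
      · have := h.up hvy h7.1 h7.2
        linarith
      · linarith
    · linarith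
    · have := h.up huy h6.1 h6.2
      linarith
    · linarith

end

theorem not_sep {f : V → ℝ} {a b c d : V} (hf : Function.Injective f) (hac : a ≠ c)
    (had : a ≠ d) (hbc : b ≠ c) (hbd : b ≠ d) (h : ¬ Sep f a b c d) (hab : f a < f b)
    (hcd : f c < f d) : f a < f d ∧ f c < f b := by
  have h1 := hf.ne hac
  have h2 := hf.ne had
  have h3 := hf.ne hbc
  have h4 := hf.ne hbd
  unfold Sep at h
  constructor
  · by_contra hc
    push Not at hc
    have h5 : f d < f a := lt_of_le_of_ne hc h2.symm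
    exact h (Or.inr ⟨hcd.trans h5, (hcd.trans h5).trans hab, h5, h5.trans hab⟩)
  · by_contra hc
    push Not at hc
    have h5 : f b < f c := lt_of_le_of_ne hc h3
    exact h (Or.inl ⟨hab.trans h5, (hab.trans h5).trans hcd, h5, h5.trans hcd⟩)

theorem Sep.comm {f : V → ℝ} {a b c d : V} (h : Sep f a b c d) : Sep f c d a b := by
  unfold Sep at *; tauto

theorem Sep.swap_left {f : V → ℝ} {a b c d : V} (h : Sep f a b c d) : Sep f b a c d := by
  unfold Sep at *; tauto

theorem Sep.swap_right {f : V → ℝ} {a b c d : V} (h : Sep f a b c d) : Sep f a b d c := by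
  unfold Sep at *; tauto

theorem Good.sep_red_red {l r b t f g : V → ℝ} (h : Good l r b t f g) {u v x y : V}
    (huv : u ≠ v) (hxy : x ≠ y) (hux : u ≠ x) (huy : u ≠ y)
    (hvx : v ≠ x) (hvy : v ≠ y) (he : Red l r b t u v) (hf : Red l r b t x y) :
    Sep f u v x y ∨ Sep g u v x y := by
  by_contra hc
  push Not at hc
  obtain ⟨a1, a2⟩ := h.red huv he
  obtain ⟨a3, a4⟩ := h.red hxy hf
  obtain ⟨b1, b2⟩ := not_sep h.finj hux huy hvx hvy hc.1 a1 a3
  obtain ⟨b3, b4⟩ := not_sep h.ginj hux huy hvx hvy hc.2 a2 a4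
  exact h.red_red hux huy hvx hvy he hf b1 b2 b3 b4

theorem Good.sep_blue_blue {l r b t f g : V → ℝ} (h : Good l r b t f g) {u v x y : V}
    (huv : u ≠ v) (hxy : x ≠ y) (hux : u ≠ x) (huy : u ≠ y)
    (hvx : v ≠ x) (hvy : v ≠ y) (he : Blue l r b t u v) (hf : Blue l r b t x y) :
    Sep f u v x y ∨ Sep g u v x y := by
  by_contra hc
  push Not at hc
  obtain ⟨a1, a2⟩ := h.blue huv he
  obtain ⟨a3, a4⟩ := h.blue hxy hf
  have hc1 : ¬ Sep f v u y x := fun h => hc.1 h.swap_left.swap_right
  obtain ⟨b1, b2⟩ := not_sep h.finj hvy hvx huy hux hc1 a1 a3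
  obtain ⟨b3, b4⟩ := not_sep h.ginj hux huy hvx hvy hc.2 a2 a4
  exact h.blue_blue hux huy hvx hvy he hf b1 b2 b3 b4

theorem Good.sep_red_blue {l r b t f g : V → ℝ} (h : Good l r b t f g) {u v x y : V}
    (huv : u ≠ v) (hxy : x ≠ y) (hux : u ≠ x) (huy : u ≠ y)
    (hvx : v ≠ x) (hvy : v ≠ y) (he : Red l r b t u v) (hf : Blue l r b t x y) :
    Sep f u v x y ∨ Sep g u v x y := by
  by_contra hc
  push Not at hc
  obtain ⟨a1, a2⟩ := h.red huv he
  obtain ⟨a3, a4⟩ := h.blue hxy hf
  have hc1 : ¬ Sep f u v y x := fun h => hc.1 h.swap_right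
  obtain ⟨b1, b2⟩ := not_sep h.finj huy hux hvy hvx hc1 a1 a3
  obtain ⟨b3, b4⟩ := not_sep h.ginj hux huy hvx hvy hc.2 a2 a4
  exact h.red_blue hux huy hvx hvy he hf b1 b2 b3 b4

theorem touch_cases {l r b t : V → ℝ} {u v : V} (h : Touch l r b t u v) :
    (Red l r b t u v ∨ Red l r b t v u) ∨ (Blue l r b t u v ∨ Blue l r b t v u) := by
  unfold Touch at h
  unfold Red Blue
  tauto

theorem Good.sep {l r b t f g : V → ℝ} (h : Good l r b t f g) {u v x y : V}
    (huv : u ≠ v) (hxy : x ≠ y) (hux : u ≠ x) (huy : u ≠ y)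
    (hvx : v ≠ x) (hvy : v ≠ y) (he : Touch l r b t u v) (hf : Touch l r b t x y) :
    Sep f u v x y ∨ Sep g u v x y := by
  have sl : ∀ {a b c d : V}, Sep f a b c d ∨ Sep g a b c d → Sep f b a c d ∨ Sep g b a c d :=
    fun h => h.imp Sep.swap_left Sep.swap_left
  have sr : ∀ {a b c d : V}, Sep f a b c d ∨ Sep g a b c d → Sep f a b d c ∨ Sep g a b d c :=
    fun h => h.imp Sep.swap_right Sep.swap_right
  have sc : ∀ {a b c d : V}, Sep f a b c d ∨ Sep g a b c d → Sep f c d a b ∨ Sep g c d a b :=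
    fun h => h.imp Sep.comm Sep.comm
  rcases touch_cases he with (he | he) | (he | he) <;>
    rcases touch_cases hf with (hf | hf) | (hf | hf)
  · exact h.sep_red_red huv hxy hux huy hvx hvy he hf
  · exact sr (h.sep_red_red huv hxy.symm huy hux hvy hvx he hf)
  · exact h.sep_red_blue huv hxy hux huy hvx hvy he hf
  · exact sr (h.sep_red_blue huv hxy.symm huy hux hvy hvx he hf)
  · exact sl (h.sep_red_red huv.symm hxy hvx hvy hux huy he hf)
  · exact sl (sr (h.sep_red_red huv.symm hxy.symm hvy hvx huy hux he hf))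
  · exact sl (h.sep_red_blue huv.symm hxy hvx hvy hux huy he hf)
  · exact sl (sr (h.sep_red_blue huv.symm hxy.symm hvy hvx huy hux he hf))
  · exact sc (h.sep_red_blue hxy huv hux.symm hvx.symm huy.symm hvy.symm hf he)
  · exact sc (sl (h.sep_red_blue hxy.symm huv huy.symm hvy.symm hux.symm hvx.symm hf he))
  · exact h.sep_blue_blue huv hxy hux huy hvx hvy he hf
  · exact sr (h.sep_blue_blue huv hxy.symm huy hux hvy hvx he hf)
  · exact sc (sr (h.sep_red_blue hxy huv.symm hvx.symm hux.symm hvy.symm huy.symm hf he))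
  · exact sc (sl (sr (h.sep_red_blue hxy.symm huv.symm hvy.symm huy.symm hvx.symm hux.symm hf he)))
  · exact sl (h.sep_blue_blue huv.symm hxy hvx hvy hux huy he hf)
  · exact sl (sr (h.sep_blue_blue huv.symm hxy.symm hvy hvx huy hux he hf))

/-- the two ends of an edge in increasing order -/
theorem not_out {f : V → ℝ} {a b w : V} (hf : Function.Injective f) (ha : w ≠ a) (hb : w ≠ b)
    (h : ¬ Sep f a b w w) : (f a < f w ∧ f w < f b) ∨ (f b < f w ∧ f w < f a) := by
  have h1 := hf.ne ha
  have h2 := hf.ne hb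
  unfold Sep at h
  rcases lt_or_gt_of_ne h1 with h3 | h3 <;> rcases lt_or_gt_of_ne h2 with h4 | h4
  · exact absurd (Or.inr ⟨h3, h4, h3, h4⟩) h
  · exact Or.inr ⟨h4, h3⟩
  · exact Or.inl ⟨h3, h4⟩
  · exact absurd (Or.inl ⟨h3, h3, h4, h4⟩) h

theorem Good.out_red {l r b t f g : V → ℝ} (h : Good l r b t f g) {u v w : V} (huv : u ≠ v)
    (hwu : w ≠ u) (hwv : w ≠ v) (he : Red l r b t u v) : Sep f u v w w ∨ Sep g u v w w := by
  by_contra hc
  push Not at hc
  obtain ⟨a1, a2⟩ := h.red huv he
  have c1 := not_out h.finj hwu hwv hc.1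
  have c2 := not_out h.ginj hwu hwv hc.2
  have d1 : f u < f w ∧ f w < f v := by
    rcases c1 with c1 | c1
    · exact c1
    · linarith
  have d2 : g u < g w ∧ g w < g v := by
    rcases c2 with c2 | c2
    · exact c2
    · linarith
  have k1 := h.right hwu.symm d1.1 d2.1
  have k2 := h.right hwv d1.2 d2.2
  have := h.lr w
  linarith [he.1]

theorem Good.out_blue {l r b t f g : V → ℝ} (h : Good l r b t f g) {u v w : V} (huv : u ≠ v)
    (hwu : w ≠ u) (hwv : w ≠ v) (he : Blue l r b t u v) : Sep f u v w w ∨ Sep g u v w w := by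
  by_contra hc
  push Not at hc
  obtain ⟨a1, a2⟩ := h.blue huv he
  have c1 := not_out h.finj hwu hwv hc.1
  have c2 := not_out h.ginj hwu hwv hc.2
  have d1 : f v < f w ∧ f w < f u := by
    rcases c1 with c1 | c1
    · linarith
    · exact c1
  have d2 : g u < g w ∧ g w < g v := by
    rcases c2 with c2 | c2
    · exact c2
    · linarith
  have k1 := h.up hwu.symm d1.2 d2.1
  have k2 := h.up hwv d1.1 d2.2
  have := h.bt w
  linarith [he.1]

theorem Good.out {l r b t f g : V → ℝ} (h : Good l r b t f g) {u v w : V} (huv : u ≠ v)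
    (hwu : w ≠ u) (hwv : w ≠ v) (he : Touch l r b t u v) : Sep f u v w w ∨ Sep g u v w w := by
  have sl : ∀ {a b c d : V}, Sep f a b c d ∨ Sep g a b c d → Sep f b a c d ∨ Sep g b a c d :=
    fun h => h.imp Sep.swap_left Sep.swap_left
  rcases touch_cases he with (he | he) | (he | he)
  · exact h.out_red huv hwu hwv he
  · exact sl (h.out_red huv.symm hwv hwu he)
  · exact h.out_blue huv hwu hwv he
  · exact sl (h.out_blue huv.symm hwv hwu he)

theorem exists_good [Finite V] {l r b t : V → ℝ} (h : Rects l r b t) :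
    ∃ f g : V → ℝ, Good l r b t f g := by
  classical
  cases nonempty_fintype V
  obtain ⟨f, hf1, hf2⟩ := exists_order (l := l) (r := r) (b := b) (t := t) Finset.univ
    (fun v _ => h.lr v) (fun v _ => h.bt v) (fun u _ v _ huv => h.disj u v huv)
  obtain ⟨g, hg1, hg2⟩ := exists_order (l := b) (r := t) (b := fun v => -r v)
    (t := fun v => -l v) Finset.univ
    (fun v _ => h.bt v) (fun v _ => neg_lt_neg (h.lr v)) (fun u _ v _ huv => by
      rcases h.disj u v huv with h1 | h1 | h1 | h1
      · exact Or.inr (Or.inr (Or.inr (neg_le_neg h1)))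
      · exact Or.inr (Or.inr (Or.inl (neg_le_neg h1)))
      · exact Or.inl h1
      · exact Or.inr (Or.inl h1))
  exact ⟨f, g, ⟨h, fun u v huv => hf1 u (Finset.mem_univ _) v (Finset.mem_univ _) huv,
    fun u v huv => hg1 u (Finset.mem_univ _) v (Finset.mem_univ _) huv,
    fun u v huv hb => hf2 u (Finset.mem_univ _) v (Finset.mem_univ _) huv hb,
    fun u v huv hb => hg2 u (Finset.mem_univ _) v (Finset.mem_univ _) huv hb⟩⟩

/-- **Contact representations by rectangles give strictly suitable pairs.** -/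
theorem strict_of_rect [Finite V] {G : SimpleGraph V} (h : RectContact G) :
    ∃ f g : V → ℝ, Strict G f g := by
  obtain ⟨l, r, b, t, hR, hT⟩ := h
  obtain ⟨f, g, hG⟩ := exists_good hR
  exact ⟨f, g, hG.finj, hG.ginj, fun u v x y huv hxy h1 h2 h3 h4 =>
    hG.sep huv.ne hxy.ne h1 h2 h3 h4 (hT u v huv) (hT x y hxy),
    fun u v w huv hwu hwv => hG.out huv.ne hwu hwv (hT u v huv)⟩

end Pool.Agent.E8helper59.SD
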