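import Pool.Agent.E8helper59.SD.Main
import Pool.Agent.H622R2.Base
import Pool.Agent.H671R2.PolyAuto
import Pool.Agent.NPC.Dec

set_option autoImplicit false

/-!
# Polynomial-time reductions between separation dimension two and rectangle contact graphs
-/

namespace Pool.Agent.E8helper59.SD

open Pool.Agent.NPC Pool.Agent.H622R2

theorem RectContact.of_iso {V V' : Type} {G : SimpleGraph V} {G' : SimpleGraph V'} (e : G ≃g G')
    (h : RectContact G) : RectContact G' := by
  obtain ⟨l, r, b, t, hR, hT⟩ := h
  refine ⟨fun v => l (e.symm v), fun v => r (e.symm v), fun v => b (e.symm v),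
    fun v => t (e.symm v), ⟨fun v => hR.lr _, fun v => hR.bt _, fun u v huv =>
      hR.disj _ _ (fun h => huv (e.symm.injective h))⟩, fun u v huv => ?_⟩
  exact hT _ _ (e.symm.map_adj_iff.2 huv)

theorem RectContact.iso_iff {V V' : Type} {G : SimpleGraph V} {G' : SimpleGraph V'} (e : G ≃g G') :
    RectContact G ↔ RectContact G' := ⟨fun h => h.of_iso e, fun h => h.of_iso e.symm⟩

theorem SepDimLE.of_iso {V V' : Type} {G : SimpleGraph V} {G' : SimpleGraph V'} (e : G ≃g G')
    {k : ℕ} (h : SepDimLE G k) : SepDimLE G' k := by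
  obtain ⟨σ, hσ⟩ := h
  refine ⟨fun i => @LinearOrder.lift' V' V (σ i) e.symm e.symm.injective,
    fun a b c d hab hcd h1 h2 h3 h4 => ?_⟩
  exact hσ _ _ _ _ (e.symm.map_adj_iff.2 hab) (e.symm.map_adj_iff.2 hcd)
    (fun h => h1 (e.symm.injective h)) (fun h => h2 (e.symm.injective h))
    (fun h => h3 (e.symm.injective h)) (fun h => h4 (e.symm.injective h))

theorem SepDimLE.iso_iff {V V' : Type} {G : SimpleGraph V} {G' : SimpleGraph V'} (e : G ≃g G')
    {k : ℕ} : SepDimLE G k ↔ SepDimLE G' k := ⟨fun h => h.of_iso e, fun h => h.of_iso e.symm⟩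

/-! ### Attaching a pendant vertex to every vertex -/

/-- The graph `G` with a new vertex `(v, true)` attached to every vertex `v = (v, false)`. -/
def withPendants {V : Type} (G : SimpleGraph V) : SimpleGraph (V × Bool) where
  Adj x y := (x.2 = false ∧ y.2 = false ∧ G.Adj x.1 y.1) ∨ (x.1 = y.1 ∧ x.2 ≠ y.2)
  symm := ⟨fun x y h => by
    rcases h with ⟨h1, h2, h3⟩ | ⟨h1, h2⟩
    · exact Or.inl ⟨h2, h1, h3.symm⟩
    · exact Or.inr ⟨h1.symm, h2.symm⟩⟩
  loopless := ⟨fun x h => by
    rcases h with ⟨_, _, h3⟩ | ⟨_, h2⟩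
    · exact h3.ne rfl
    · exact h2 rfl⟩

theorem sepDim_withPendants {V : Type} [Finite V] (G : SimpleGraph V) :
    RectContact G ↔ SepDimLE (withPendants G) 2 := by
  classical
  cases nonempty_fintype V
  rw [sepDimLE_two_iff]
  constructor
  · intro hR
    obtain ⟨f0, g0, h0⟩ := strict_of_rect hR
    have key : ∀ R : Finset V, ∃ f g : V × Bool → ℝ,
        Inv (withPendants G) {x | x.2 = true}
          ((Finset.univ.filter fun x : V × Bool => x.2 = false) ∪ R.image fun v => (v, true)) f g := by
      intro R
      induction R using Finset.induction_on with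
      | empty =>
        refine ⟨fun x => f0 x.1, fun x => g0 x.1, ?_⟩
        have hmem : ∀ x, x ∈ ((Finset.univ.filter fun x : V × Bool => x.2 = false) ∪
            (∅ : Finset V).image fun v => (v, true)) → x.2 = false := by
          intro x hx
          simpa using hx
        have hadj : ∀ x y : V × Bool, x.2 = false → y.2 = false → (withPendants G).Adj x y →
            G.Adj x.1 y.1 := by
          intro x y hx hy h
          rcases h with ⟨_, _, h3⟩ | ⟨_, h2⟩
          · exact h3
          · rw [hx, hy] at h2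
            exact absurd rfl h2
        have hne : ∀ x y : V × Bool, x.2 = false → y.2 = false → x ≠ y → x.1 ≠ y.1 := by
          intro x y hx hy h h'
          exact h (Prod.ext h' (by rw [hx, hy]))
        constructor
        · intro u hu v hv huv
          exact Prod.ext (h0.finj huv) (by rw [hmem u hu, hmem v hv])
        · intro u hu v hv huv
          exact Prod.ext (h0.ginj huv) (by rw [hmem u hu, hmem v hv])
        · intro a ha b hb c hc d hd hab hcd a1 a2 a3 a4
          exact h0.sep a.1 b.1 c.1 d.1 (hadj a b (hmem a ha) (hmem b hb) hab)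
            (hadj c d (hmem c hc) (hmem d hd) hcd) (hne a c (hmem a ha) (hmem c hc) a1)
            (hne a d (hmem a ha) (hmem d hd) a2) (hne b c (hmem b hb) (hmem c hc) a3)
            (hne b d (hmem b hb) (hmem d hd) a4)
        · intro a ha b hb w hw _ hab a1 a2
          exact h0.out a.1 b.1 w.1 (hadj a b (hmem a ha) (hmem b hb) hab)
            (hne w a (hmem w hw) (hmem a ha) a1) (hne w b (hmem w hw) (hmem b hb) a2)
      | insert v R hvR ih =>
        obtain ⟨f, g, hI⟩ := ih
        rw [Finset.image_insert, Finset.union_insert]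
        refine hI.pendant (b := (v, false)) ?_ rfl ?_ (by simp) ?_
        · simp [hvR]
        · simp
        · intro w hw hvw
          rcases hvw with ⟨h1, _⟩ | ⟨h1, h2⟩
          · simp at h1
          · refine Prod.ext h1.symm ?_
            simpa using h2
    obtain ⟨f, g, hI⟩ := key Finset.univ
    have hall : ∀ x : V × Bool, x ∈ ((Finset.univ.filter fun x : V × Bool => x.2 = false) ∪
        (Finset.univ : Finset V).image fun v => (v, true)) := by
      rintro ⟨v, s⟩
      cases s <;> simp
    exact ⟨f, g, fun u v huv => hI.finj u (hall u) v (hall v) huv,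
      fun u v huv => hI.ginj u (hall u) v (hall v) huv,
      fun a b c d hab hcd a1 a2 a3 a4 => hI.sep a (hall a) b (hall b) c (hall c) d (hall d)
        hab hcd a1 a2 a3 a4⟩
  · rintro ⟨f, g, hf, hg, hs⟩
    apply rect_of_strict
    have hne : ∀ {u v : V} {s s' : Bool}, u ≠ v → ((u, s) : V × Bool) ≠ (v, s') :=
      fun h h' => h (congrArg Prod.fst h')
    refine ⟨fun v => f (v, false), fun v => g (v, false),
      fun u v huv => congrArg Prod.fst (hf huv), fun u v huv => congrArg Prod.fst (hg huv), ?_, ?_⟩
    · intro a b c d hab hcd a1 a2 a3 a4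
      exact hs (a, false) (b, false) (c, false) (d, false) (Or.inl ⟨rfl, rfl, hab⟩)
        (Or.inl ⟨rfl, rfl, hcd⟩) (hne a1) (hne a2) (hne a3) (hne a4)
    · intro a b w hab a1 a2
      rcases hs (a, false) (b, false) (w, false) (w, true) (Or.inl ⟨rfl, rfl, hab⟩)
        (Or.inr ⟨rfl, by simp⟩) (hne a1.symm) (hne a1.symm) (hne a2.symm) (hne a2.symm) with
        (h5 | h5) | (h5 | h5)
      · exact Or.inl (Or.inl ⟨h5.1, h5.1, h5.2.2.1, h5.2.2.1⟩)
      · exact Or.inl (Or.inr ⟨h5.1, h5.2.1, h5.1, h5.2.1⟩)
      · exact Or.inr (Or.inl ⟨h5.1, h5.1, h5.2.2.1, h5.2.2.1⟩)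
      · exact Or.inr (Or.inr ⟨h5.1, h5.2.1, h5.1, h5.2.1⟩)

/-! ### The canonical choice of the redundant vertices -/

/-- The redundant vertices without a smaller redundant neighbour. -/
def dropped {n : ℕ} (G : SimpleGraph (Fin n)) : Set (Fin n) :=
  {v | Redundant G v ∧ ∀ w, w < v → G.Adj v w → ¬ Redundant G w}

theorem dropped_spec {n : ℕ} (G : SimpleGraph (Fin n)) :
    (∀ v ∈ dropped G, Redundant G v) ∧ (∀ u ∈ dropped G, ∀ v ∈ dropped G, ¬ G.Adj u v) ∧
      ∀ v, Redundant G v → v ∉ dropped G → ∃ u ∈ dropped G, G.Adj v u := by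
  classical
  refine ⟨fun v hv => hv.1, fun u hu v hv huv => ?_, fun v hv hvd => ?_⟩
  · rcases lt_or_gt_of_ne huv.ne with h | h
    · exact hv.2 u h huv.symm hu.1
    · exact hu.2 v h huv hv.1
  · have hex : ∃ w, w < v ∧ G.Adj v w ∧ Redundant G w := by
      by_contra hc
      push Not at hc
      exact hvd ⟨hv, fun w h1 h2 => hc w h1 h2⟩
    obtain ⟨w0, hw0⟩ := hex
    obtain ⟨w, hw, hmin⟩ := Finset.exists_min_image
      (Finset.univ.filter fun w => G.Adj v w ∧ Redundant G w) id
      ⟨w0, Finset.mem_filter.2 ⟨Finset.mem_univ _, hw0.2⟩⟩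
    obtain ⟨-, hvw, hwr⟩ := Finset.mem_filter.1 hw
    have hwv : w < v := lt_of_le_of_lt
      (hmin w0 (Finset.mem_filter.2 ⟨Finset.mem_univ _, hw0.2⟩)) hw0.1
    refine ⟨w, ⟨hwr, fun u huw hwu hur => ?_⟩, hvw⟩
    -- `u < w < v`, `w` is adjacent to both
    have huv : u ≠ v := (huw.trans hwv).ne
    have hadj : G.Adj v u := by
      obtain ⟨b, c, hbc, h1, h2, hN⟩ := hwr
      have e1 := hN v hvw.symm
      have e2 := hN u hwu
      rcases e1 with rfl | rfl <;> rcases e2 with rfl | rfl
      · exact absurd rfl huv
      · exact hbc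
      · exact hbc.symm
      · exact absurd rfl huv
    have := hmin u (Finset.mem_filter.2 ⟨Finset.mem_univ _, hadj, hur⟩)
    exact absurd huw (not_lt.2 this)

/-! ### The algorithms -/

/-- adjacency in the graph with the adjacency matrix `M` -/
def adjB (M : List (List Bool)) (i j : ℕ) : Bool :=
  decide (i ≠ j) && (entry M i j || entry M j i)

/-- redundancy test -/
def redB (M : List (List Bool)) (v : ℕ) : Bool :=
  (List.range M.length).any fun b => (List.range M.length).any fun c =>
    adjB M b c && (decide (v ≠ b) && (decide (v ≠ c) &&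
      (List.range M.length).all fun w => !(adjB M v w) || (decide (w = b) || decide (w = c))))

/-- membership in `dropped` -/
def dropB (M : List (List Bool)) (v : ℕ) : Bool :=
  redB M v && (List.range M.length).all fun w => !(decide (w < v)) || (!(adjB M v w) || !(redB M w))

/-- The matrix of the graph without the vertices in `dropped`. -/
def core (M : List (List Bool)) : List (List Bool) :=
  mat ((List.range M.length).filter fun v => !(dropB M v)) (entry M)

/-- The matrix of the graph with pendant vertices. -/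
def pend (M : List (List Bool)) : List (List Bool) :=
  mat ((List.range M.length).flatMap fun i => [(i, false), (i, true)])
    (fun x y => (!x.2 && (!y.2 && entry M x.1 y.1)) || (decide (x.1 = y.1) && (!x.2 && y.2)))

theorem entry_poly : Poly (fun p : (List (List Bool) × ℕ) × ℕ => entry p.1.1 p.1.2 p.2) := by
  unfold entry
  fun_prop

theorem adjB_poly : Poly (fun p : (List (List Bool) × ℕ) × ℕ => adjB p.1.1 p.1.2 p.2) := by
  unfold adjB entry
  fun_prop

theorem range_poly {α : Type} [TEnc α] {f : α → List (List Bool)} (hf : Poly f) :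
    Poly (fun a => List.range (f a).length) := Poly.range_length hf

attribute [local fun_prop] range_poly

theorem redB_poly : Poly (fun p : List (List Bool) × ℕ => redB p.1 p.2) := by
  unfold redB adjB entry
  fun_prop

theorem dropB_poly : Poly (fun p : List (List Bool) × ℕ => dropB p.1 p.2) := by
  unfold dropB
  have h := redB_poly
  unfold adjB entry
  fun_prop

theorem core_poly : Poly core := by
  unfold core
  refine mat_poly (Poly.filter (p := fun (M : List (List Bool)) v => !(dropB M v))
    (Poly.range_length Poly.id) (Poly.not dropB_poly)) ?_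
  exact entry_poly

theorem pend_poly : Poly pend := by
  unfold pend
  refine mat_poly (l := fun M : List (List Bool) =>
    (List.range M.length).flatMap fun i => [(i, false), (i, true)]) ?_ ?_
  · fun_prop
  · unfold entry
    fun_prop

theorem adjB_iff {M : List (List Bool)} (i j : Fin M.length) :
    adjB M i j = true ↔ (matGraph M).Adj i j := by
  unfold adjB
  simp only [Bool.and_eq_true, decide_eq_true_eq, Bool.or_eq_true]
  show _ ↔ i ≠ j ∧ (entry M i j = true ∨ entry M j i = true)
  rw [Ne, Ne, Fin.ext_iff]

theorem any_range {n : ℕ} {p : ℕ → Bool} :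
    (List.range n).any p = true ↔ ∃ i : Fin n, p i = true := by
  simp only [List.any_eq_true, List.mem_range]
  exact ⟨fun ⟨i, h, h'⟩ => ⟨⟨i, h⟩, h'⟩, fun ⟨i, h'⟩ => ⟨i, i.2, h'⟩⟩

theorem all_range {n : ℕ} {p : ℕ → Bool} :
    (List.range n).all p = true ↔ ∀ i : Fin n, p i = true := by
  simp only [List.all_eq_true, List.mem_range]
  exact ⟨fun h i => h i i.2, fun h i hi => h ⟨i, hi⟩⟩

theorem redB_iff {M : List (List Bool)} (v : Fin M.length) :
    redB M v = true ↔ Redundant (matGraph M) v := by
  unfold redB Redundant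
  simp only [any_range, Bool.and_eq_true, all_range, adjB_iff, decide_eq_true_eq,
    Bool.or_eq_true, Bool.not_eq_true', ne_eq, ← Fin.ext_iff]
  refine exists_congr fun b => exists_congr fun c => ?_
  refine and_congr_right fun _ => and_congr_right fun _ => and_congr_right fun _ =>
    forall_congr' fun w => ?_
  rw [← adjB_iff, ← Bool.not_eq_true, imp_iff_not_or]

theorem dropB_iff {M : List (List Bool)} (v : Fin M.length) :
    dropB M v = true ↔ v ∈ dropped (matGraph M) := by
  unfold dropB dropped
  simp only [Bool.and_eq_true, all_range, redB_iff, Bool.or_eq_true, Bool.not_eq_true',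
    Set.mem_ofPred_eq, decide_eq_false_iff_not]
  refine and_congr_right fun _ => forall_congr' fun w => ?_
  rw [← Bool.not_eq_true, ← Bool.not_eq_true, adjB_iff, redB_iff, Fin.lt_def]
  tauto

/-- the list of the remaining vertices -/
def kept (M : List (List Bool)) : List ℕ := (List.range M.length).filter fun v => !(dropB M v)

theorem mem_kept {M : List (List Bool)} {x : ℕ} :
    x ∈ kept M ↔ ∃ h : x < M.length, (⟨x, h⟩ : Fin M.length) ∈ (dropped (matGraph M))ᶜ := by
  unfold kept
  simp only [List.mem_filter, List.mem_range, Bool.not_eq_true', Set.mem_compl_iff]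
  constructor
  · rintro ⟨h, h'⟩
    refine ⟨h, fun hd => ?_⟩
    rw [(dropB_iff ⟨x, h⟩).2 hd] at h'
    exact absurd h' (by simp)
  · rintro ⟨h, h'⟩
    refine ⟨h, ?_⟩
    by_contra hc
    exact h' ((dropB_iff ⟨x, h⟩).1 (by simpa using hc))

/-- the graph without the dropped vertices, as a graph on a list of labels -/
def keptIso (M : List (List Bool)) :
    (matGraph M).induce ((dropped (matGraph M))ᶜ : Set (Fin M.length)) ≃g
      labGraph (kept M) (entry M) where
  toFun v := ⟨v.1.1, mem_kept.2 ⟨v.1.2, v.2⟩⟩
  invFun x := ⟨⟨x.1, (mem_kept.1 x.2).1⟩, (mem_kept.1 x.2).2⟩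
  left_inv v := rfl
  right_inv x := rfl
  map_rel_iff' := by
    intro a b
    show (_ ≠ _ ∧ _) ↔ (_ ≠ _ ∧ _)
    refine and_congr ?_ Iff.rfl
    rw [not_iff_not, Subtype.mk.injEq]
    exact Fin.ext_iff.symm

theorem core_spec (M : List (List Bool)) :
    SepDimLE (matGraph M) 2 ↔ RectContact (matGraph (core M)) := by
  obtain ⟨h1, h2, h3⟩ := dropped_spec (matGraph M)
  rw [sepDim_iff (matGraph M) _ h1 h2 h3, RectContact.iso_iff (keptIso M)]
  exact (RectContact.iso_iff (matIso (kept M) (entry M)
    (List.Nodup.filter _ List.nodup_range))).symm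

/-- the labels of the graph with pendant vertices -/
def pendLab (n : ℕ) : List (ℕ × Bool) := (List.range n).flatMap fun i => [(i, false), (i, true)]

theorem mem_pendLab {n : ℕ} {x : ℕ × Bool} : x ∈ pendLab n ↔ x.1 < n := by
  unfold pendLab
  simp only [List.mem_flatMap, List.mem_range, List.mem_cons, List.not_mem_nil, or_false]
  constructor
  · rintro ⟨i, hi, rfl | rfl⟩ <;> exact hi
  · intro h
    refine ⟨x.1, h, ?_⟩
    rcases x with ⟨i, s⟩
    cases s <;> simp

theorem pendLab_nodup (n : ℕ) : (pendLab n).Nodup := by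
  unfold pendLab
  rw [List.nodup_flatMap]
  refine ⟨fun i _ => by simp, ?_⟩
  refine List.Nodup.pairwise_of_forall_ne List.nodup_range fun i _ j _ hij => ?_
  simp only [Function.onFun, List.disjoint_left, List.mem_cons, List.not_mem_nil, or_false]
  rintro x (rfl | rfl) <;> simp [hij]

/-- the graph with pendant vertices, as a graph on labels -/
def pendIso (M : List (List Bool)) : withPendants (matGraph M) ≃g
    labGraph (pendLab M.length)
      (fun x y => (!x.2 && (!y.2 && entry M x.1 y.1)) || (decide (x.1 = y.1) && (!x.2 && y.2))) where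
  toFun v := ⟨(v.1.1, v.2), mem_pendLab.2 v.1.2⟩
  invFun x := (⟨x.1.1, mem_pendLab.1 x.2⟩, x.1.2)
  left_inv v := rfl
  right_inv x := rfl
  map_rel_iff' := by
    rintro ⟨⟨i, hi⟩, s⟩ ⟨⟨j, hj⟩, s'⟩
    simp only [labGraph, Equiv.coe_fn_mk, withPendants, matGraph]
    cases s <;> cases s' <;> simp
    tauto

theorem pend_spec (M : List (List Bool)) :
    RectContact (matGraph M) ↔ SepDimLE (matGraph (pend M)) 2 := by
  rw [sepDim_withPendants, SepDimLE.iso_iff (pendIso M)]
  exact (SepDimLE.iso_iff (matIso (pendLab M.length) _ (pendLab_nodup _))).symm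

/-- The decision problem of separation dimension at most two. -/
theorem reduces_core : Reduces (lang fun M : List (List Bool) => SepDimLE (matGraph M) 2)
    (lang fun M : List (List Bool) => RectContact (matGraph M)) :=
  reduces_lang core_poly core_spec

theorem reduces_pend : Reduces (lang fun M : List (List Bool) => RectContact (matGraph M))
    (lang fun M : List (List Bool) => SepDimLE (matGraph M) 2) :=
  reduces_lang pend_poly pend_spec

end Pool.Agent.E8helper59.SD
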