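import Pool.Agent.E8helper59.SD.Pot

set_option autoImplicit false

/-!
# Strictly suitable pairs give contact representations by rectangles: assembly
-/

namespace Pool.Agent.E8helper59.SD

variable {V : Type}

/-- the arcs of the constraint graph: `(v, false)` is the bottom and `(v, true)` the top of `v` -/
inductive Arc (G : SimpleGraph V) (f g : V → ℝ) : V × Bool → V × Bool → Prop
  | link (p q : V) (h : Link G f g p q) : Arc G f g (p, false) (q, true)
  | down (p q : V) (h : Up f g p q) : Arc G f g (p, true) (q, false)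

theorem path_seq {G : SimpleGraph V} {f g : V → ℝ} {q : V} {x : V × Bool}
    (h : Relation.ReflTransGen (Arc G f g) (q, true) x) :
    ∃ (n : ℕ) (A B : ℕ → V), B 0 = q ∧
      (∀ m < n, Up f g (B m) (A (m + 1)) ∧ Link G f g (A (m + 1)) (B (m + 1))) ∧
      ((x.2 = true ∧ B n = x.1) ∨ (x.2 = false ∧ Up f g (B n) x.1)) := by
  induction h with
  | refl => exact ⟨0, fun _ => q, fun _ => q, rfl, by simp, Or.inl ⟨rfl, rfl⟩⟩
  | tail _ hstep ih =>
    obtain ⟨n, A, B, h0, h1, h2⟩ := ih
    cases hstep with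
    | link p q' hl =>
      rcases h2 with ⟨h2, -⟩ | ⟨-, h2⟩
      · simp at h2
      · refine ⟨n + 1, Function.update A (n + 1) p, Function.update B (n + 1) q', ?_, ?_, ?_⟩
        · rw [Function.update_of_ne (by omega)]
          exact h0
        · intro m hm
          rcases Nat.lt_or_ge m n with h3 | h3
          · rw [Function.update_of_ne (by omega), Function.update_of_ne (by omega),
              Function.update_of_ne (by omega)]
            exact h1 m h3
          · have h4 : m = n := by omega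
            subst h4
            rw [Function.update_of_ne (by omega), Function.update_self, Function.update_self]
            exact ⟨h2, hl⟩
        · exact Or.inl ⟨rfl, by rw [Function.update_self]⟩
    | down p q' hu =>
      rcases h2 with ⟨-, h2⟩ | ⟨h2, -⟩
      · refine ⟨n, A, B, h0, h1, Or.inr ⟨rfl, ?_⟩⟩
        rw [h2]
        exact hu
      · simp at h2

theorem no_path {G : SimpleGraph V} {f g : V → ℝ} (h : Strict G f g)
    (hf : ∀ u v, f u < f v → f u + 1 ≤ f v) (hg : ∀ u v, g u < g v → g u + 1 ≤ g v) {p q : V}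
    (hs : SLink G f g p q) : ¬ Relation.ReflTransGen (Arc G f g) (q, true) (p, false) := by
  intro hp
  obtain ⟨n, A, B, h0, h1, h2⟩ := path_seq hp
  rcases h2 with ⟨h2, -⟩ | ⟨-, h2⟩
  · simp at h2
  · refine no_cyc h hf hg (n + 1) _ _ (mk_cyc (n + 1) (Function.update A 0 p) B (by omega)
      ?_ ?_ ?_ ⟨0, by omega, ?_⟩)
    · intro m hm
      rcases Nat.eq_zero_or_pos m with h3 | h3
      · subst h3
        rw [Function.update_self, h0]
        exact hs.link
      · rw [Function.update_of_ne (by omega)]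
        have := (h1 (m - 1) (by omega)).2
        rwa [Nat.sub_add_cancel h3] at this
    · intro m hm
      rw [Function.update_of_ne (by omega)]
      exact (h1 m (by omega)).1
    · rw [Function.update_self]
      exact h2
    · rw [Function.update_self, h0]
      exact hs

/-- **The vertical coordinates.** -/
theorem vertical [Finite V] {G : SimpleGraph V} {f g : V → ℝ} (h : Strict G f g)
    (hf : ∀ u v, f u < f v → f u + 1 ≤ f v) (hg : ∀ u v, g u < g v → g u + 1 ≤ g v) :
    ∃ b t : V → ℝ, (∀ v, b v < t v) ∧ (∀ p q, Up f g p q → t p ≤ b q) ∧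
      (∀ p q, G.Adj p q → Up f g p q → t p = b q) ∧
      (∀ p q, G.Adj p q → ¬ Up f g p q → ¬ Up f g q p → b p < t q) := by
  classical
  cases nonempty_fintype V
  let H : V × Bool → ℝ := fun x =>
    ((Finset.univ.filter fun z => Relation.ReflTransGen (Arc G f g) z x).card : ℝ)
  have hmono : ∀ x y, Relation.ReflTransGen (Arc G f g) x y → H x ≤ H y := by
    intro x y hxy
    simp only [H, Nat.cast_le]
    apply Finset.card_le_card
    intro z hz
    rw [Finset.mem_filter] at hz ⊢
    exact ⟨hz.1, hz.2.trans hxy⟩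
  have hstrict : ∀ x y, Relation.ReflTransGen (Arc G f g) x y →
      ¬ Relation.ReflTransGen (Arc G f g) y x → H x < H y := by
    intro x y hxy hyx
    simp only [H, Nat.cast_lt]
    apply Finset.card_lt_card
    rw [Finset.ssubset_iff_of_subset]
    · exact ⟨y, Finset.mem_filter.2 ⟨Finset.mem_univ _, Relation.ReflTransGen.refl⟩,
        fun hy => hyx (Finset.mem_filter.1 hy).2⟩
    · intro z hz
      rw [Finset.mem_filter] at hz ⊢
      exact ⟨hz.1, hz.2.trans hxy⟩
  refine ⟨fun v => H (v, false), fun v => H (v, true), ?_, ?_, ?_, ?_⟩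
  · intro v
    exact hstrict _ _ (Relation.ReflTransGen.single (Arc.link v v (Or.inl rfl)))
      (no_path h hf hg (Or.inl rfl))
  · intro p q hpq
    exact hmono _ _ (Relation.ReflTransGen.single (Arc.down p q hpq))
  · intro p q ha hpq
    refine le_antisymm (hmono _ _ (Relation.ReflTransGen.single (Arc.down p q hpq)))
      (hmono _ _ (Relation.ReflTransGen.single (Arc.link q p (Or.inr ⟨ha.symm, ?_⟩))))
    intro hqp
    exact (hpq.trans hqp).irrefl
  · intro p q ha h1 h2
    exact hstrict _ _ (Relation.ReflTransGen.single (Arc.link p q (Or.inr ⟨ha, h1⟩)))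
      (no_path h hf hg (Or.inr ⟨ha, h1, h2⟩))

theorem sep_neg {f : V → ℝ} {a b c d : V} (h : Sep f a b c d) : Sep (fun v => -f v) a b c d := by
  unfold Sep at *
  simp only [neg_lt_neg_iff]
  tauto

theorem sep_congr {f f' : V → ℝ} (hff : ∀ u v, f u < f v → f' u < f' v) {a b c d : V}
    (h : Sep f a b c d) : Sep f' a b c d := by
  unfold Sep at *
  rcases h with ⟨h1, h2, h3, h4⟩ | ⟨h1, h2, h3, h4⟩
  · exact Or.inl ⟨hff _ _ h1, hff _ _ h2, hff _ _ h3, hff _ _ h4⟩
  · exact Or.inr ⟨hff _ _ h1, hff _ _ h2, hff _ _ h3, hff _ _ h4⟩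

theorem Strict.neg {G : SimpleGraph V} {f g : V → ℝ} (h : Strict G f g) :
    Strict G (fun v => -f v) g where
  finj := fun _ _ huv => h.finj (neg_injective huv)
  ginj := h.ginj
  sep a b c d h1 h2 h3 h4 h5 h6 := (h.sep a b c d h1 h2 h3 h4 h5 h6).imp sep_neg id
  out a b w h1 h2 h3 := (h.out a b w h1 h2 h3).imp sep_neg id

/-- the rank -/
theorem exists_rank [Finite V] (f : V → ℝ) (hf : Function.Injective f) :
    ∃ f' : V → ℝ, Function.Injective f' ∧ (∀ u v, f u < f v → f' u < f' v) ∧
      ∀ u v, f' u < f' v → f' u + 1 ≤ f' v := by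
  classical
  cases nonempty_fintype V
  have hlt : ∀ u v, f u < f v → ((Finset.univ.filter fun w => f w < f u).card : ℝ) <
      (Finset.univ.filter fun w => f w < f v).card := by
    intro u v huv
    rw [Nat.cast_lt]
    apply Finset.card_lt_card
    rw [Finset.ssubset_iff_of_subset]
    · exact ⟨u, Finset.mem_filter.2 ⟨Finset.mem_univ _, huv⟩,
        fun hy => lt_irrefl _ (Finset.mem_filter.1 hy).2⟩
    · intro z hz
      rw [Finset.mem_filter] at hz ⊢
      exact ⟨hz.1, hz.2.trans huv⟩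
  refine ⟨fun v => ((Finset.univ.filter fun w => f w < f v).card : ℝ), ?_, hlt, ?_⟩
  · intro u v huv
    by_contra hne
    rcases lt_or_gt_of_ne (hf.ne hne) with h1 | h1
    · exact absurd huv (hlt u v h1).ne
    · exact absurd huv.symm (hlt v u h1).ne
  · intro u v huv
    have h1 := Nat.cast_lt.1 huv
    show ((Finset.univ.filter fun w => f w < f u).card : ℝ) + 1 ≤
      (Finset.univ.filter fun w => f w < f v).card
    exact_mod_cast h1

theorem Strict.rank [Finite V] {G : SimpleGraph V} {f g : V → ℝ} (h : Strict G f g) :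
    ∃ f' g' : V → ℝ, Strict G f' g' ∧ (∀ u v, f' u < f' v → f' u + 1 ≤ f' v) ∧
      ∀ u v, g' u < g' v → g' u + 1 ≤ g' v := by
  obtain ⟨f', h1, h2, h3⟩ := exists_rank f h.finj
  obtain ⟨g', k1, k2, k3⟩ := exists_rank g h.ginj
  exact ⟨f', g', ⟨h1, k1, fun a b c d e1 e2 e3 e4 e5 e6 =>
    (h.sep a b c d e1 e2 e3 e4 e5 e6).imp (sep_congr h2) (sep_congr k2),
    fun a b w e1 e2 e3 => (h.out a b w e1 e2 e3).imp (sep_congr h2) (sep_congr k2)⟩, h3, k3⟩

/-- **Strictly suitable pairs give contact representations by rectangles.** -/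
theorem rect_of_strict [Finite V] {G : SimpleGraph V} (h : ∃ f g : V → ℝ, Strict G f g) :
    RectContact G := by
  obtain ⟨f0, g0, h0⟩ := h
  obtain ⟨f, g, h, hf, hg⟩ := h0.rank
  obtain ⟨b, t, v1, v2, v3, v4⟩ := vertical h hf hg
  have hf' : ∀ u v, -f u < -f v → -f u + 1 ≤ -f v := fun u v huv => by
    have := hf v u (neg_lt_neg_iff.1 huv)
    linarith
  obtain ⟨l, r, w1, w2, w3, w4⟩ := vertical h.neg hf' hg
  have hright : ∀ p q, f p < f q → g p < g q → Up (fun v => -f v) g p q := fun p q h1 h2 =>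
    ⟨neg_lt_neg h1, h2⟩
  have htot : ∀ p q, p ≠ q → Up f g p q ∨ Up f g q p ∨ Up (fun v => -f v) g p q ∨
      Up (fun v => -f v) g q p := by
    intro p q hpq
    rcases lt_or_gt_of_ne (h.finj.ne hpq) with h1 | h1 <;>
      rcases lt_or_gt_of_ne (h.ginj.ne hpq) with h2 | h2
    · exact Or.inr (Or.inr (Or.inl (hright p q h1 h2)))
    · exact Or.inr (Or.inl ⟨h1, h2⟩)
    · exact Or.inl ⟨h1, h2⟩
    · exact Or.inr (Or.inr (Or.inr (hright q p h1 h2)))
  have hno : ∀ p q, Up f g p q → ¬ Up (fun v => -f v) g p q ∧ ¬ Up (fun v => -f v) g q p := by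
    intro p q h1
    refine ⟨fun h2 => ?_, fun h2 => ?_⟩
    · have := neg_lt_neg_iff.1 h2.1
      exact lt_irrefl _ (this.trans h1.1)
    · exact lt_irrefl _ (h2.2.trans h1.2)
  have hno' : ∀ p q, Up (fun v => -f v) g p q → ¬ Up f g p q ∧ ¬ Up f g q p := by
    intro p q h1
    exact ⟨fun h2 => (hno p q h2).1 h1, fun h2 => (hno q p h2).2 h1⟩
  refine ⟨l, r, b, t, ⟨w1, v1, ?_⟩, ?_⟩
  · intro u v huv
    rcases htot u v huv with h1 | h1 | h1 | h1
    · exact Or.inr (Or.inr (Or.inl (v2 u v h1)))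
    · exact Or.inr (Or.inr (Or.inr (v2 v u h1)))
    · exact Or.inl (w2 u v h1)
    · exact Or.inr (Or.inl (w2 v u h1))
  · intro u v huv
    rcases htot u v huv.ne with h1 | h1 | h1 | h1
    · obtain ⟨h2, h3⟩ := hno u v h1
      exact Or.inr ⟨Or.inl (v3 u v huv h1), w4 u v huv h2 h3, w4 v u huv.symm h3 h2⟩
    · obtain ⟨h2, h3⟩ := hno v u h1
      exact Or.inr ⟨Or.inr (v3 v u huv.symm h1), w4 u v huv h3 h2, w4 v u huv.symm h2 h3⟩
    · obtain ⟨h2, h3⟩ := hno' u v h1
      exact Or.inl ⟨Or.inl (w3 u v huv h1), v4 u v huv h2 h3, v4 v u huv.symm h3 h2⟩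
    · obtain ⟨h2, h3⟩ := hno' v u h1
      exact Or.inl ⟨Or.inr (w3 v u huv.symm h1), v4 u v huv h3 h2, v4 v u huv.symm h2 h3⟩

end Pool.Agent.E8helper59.SD
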