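import Pool.Agent.E8helper59.SD.Back

set_option autoImplicit false

/-!
# Inserting redundant vertices
-/

namespace Pool.Agent.E8helper59.SD

variable {V : Type}

/-- A suitable pair on the vertices in `W`; the vertices outside `S` are protected. -/
structure Inv (G : SimpleGraph V) (S : Set V) (W : Finset V) (f g : V → ℝ) : Prop where
  finj : ∀ u ∈ W, ∀ v ∈ W, f u = f v → u = v
  ginj : ∀ u ∈ W, ∀ v ∈ W, g u = g v → u = v
  sep : ∀ a ∈ W, ∀ b ∈ W, ∀ c ∈ W, ∀ d ∈ W, G.Adj a b → G.Adj c d → a ≠ c → a ≠ d → b ≠ c →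
    b ≠ d → Sep f a b c d ∨ Sep g a b c d
  out : ∀ a ∈ W, ∀ b ∈ W, ∀ w ∈ W, w ∉ S → G.Adj a b → w ≠ a → w ≠ b →
    Sep f a b w w ∨ Sep g a b w w

theorem Inv.negg {G : SimpleGraph V} {S : Set V} {W : Finset V} {f g : V → ℝ}
    (h : Inv G S W f g) : Inv G S W f (fun v => -g v) where
  finj := h.finj
  ginj := fun u hu v hv huv => h.ginj u hu v hv (neg_injective huv)
  sep a ha b hb c hc d hd h1 h2 h3 h4 h5 h6 :=
    (h.sep a ha b hb c hc d hd h1 h2 h3 h4 h5 h6).imp id sep_neg
  out a ha b hb w hw h0 h1 h2 h3 := (h.out a ha b hb w hw h0 h1 h2 h3).imp id sep_neg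

/-- Combining: it suffices to treat the edges at the new vertex. -/
theorem Inv.insert [DecidableEq V] {G : SimpleGraph V} {S : Set V} {W : Finset V} {f g : V → ℝ}
    (h : Inv G S W f g) {v : V} (hv : v ∉ W) (hvS : v ∈ S) (m m' : ℝ) (hm : ∀ w ∈ W, f w ≠ m)
    (hm' : ∀ w ∈ W, g w ≠ m')
    (hsep : ∀ z ∈ W, G.Adj v z → ∀ p ∈ W, ∀ q ∈ W, G.Adj p q → z ≠ p → z ≠ q →
      ((m < f p ∧ m < f q ∧ f z < f p ∧ f z < f q) ∨ (f p < m ∧ f q < m ∧ f p < f z ∧ f q < f z) ∨
       (m' < g p ∧ m' < g q ∧ g z < g p ∧ g z < g q) ∨ (g p < m' ∧ g q < m' ∧ g p < g z ∧ g q < g z)))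
    (hout : ∀ z ∈ W, G.Adj v z → ∀ w ∈ W, w ∉ S → w ≠ z →
      ((m < f w ∧ f z < f w) ∨ (f w < m ∧ f w < f z) ∨ (m' < g w ∧ g z < g w) ∨
        (g w < m' ∧ g w < g z))) :
    ∃ f' g' : V → ℝ, Inv G S (Insert.insert v W) f' g' := by
  have hne : ∀ {w : V}, w ∈ W → w ≠ v := fun hw he => hv (he ▸ hw)
  refine ⟨Function.update f v m, Function.update g v m', ?_, ?_, ?_, ?_⟩
  · intro u hu w hw huw
    rcases Finset.mem_insert.1 hu with rfl | hu' <;> rcases Finset.mem_insert.1 hw with rfl | hw'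
    · rfl
    · rw [Function.update_self, Function.update_of_ne (hne hw')] at huw
      exact absurd huw.symm (hm w hw')
    · rw [Function.update_self, Function.update_of_ne (hne hu')] at huw
      exact absurd huw (hm u hu')
    · rw [Function.update_of_ne (hne hu'), Function.update_of_ne (hne hw')] at huw
      exact h.finj u hu' w hw' huw
  · intro u hu w hw huw
    rcases Finset.mem_insert.1 hu with rfl | hu' <;> rcases Finset.mem_insert.1 hw with rfl | hw'
    · rfl
    · rw [Function.update_self, Function.update_of_ne (hne hw')] at huw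
      exact absurd huw.symm (hm' w hw')
    · rw [Function.update_self, Function.update_of_ne (hne hu')] at huw
      exact absurd huw (hm' u hu')
    · rw [Function.update_of_ne (hne hu'), Function.update_of_ne (hne hw')] at huw
      exact h.ginj u hu' w hw' huw
  · -- edges
    have key : ∀ z ∈ W, G.Adj v z → ∀ p ∈ W, ∀ q ∈ W, G.Adj p q → z ≠ p → z ≠ q →
        Sep (Function.update f v m) v z p q ∨ Sep (Function.update g v m') v z p q := by
      intro z hz hvz p hp q hq hpq h1 h2
      unfold Sep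
      rw [Function.update_self, Function.update_self, Function.update_of_ne (hne hz),
        Function.update_of_ne (hne hp), Function.update_of_ne (hne hq),
        Function.update_of_ne (hne hz), Function.update_of_ne (hne hp),
        Function.update_of_ne (hne hq)]
      rcases hsep z hz hvz p hp q hq hpq h1 h2 with h3 | h3 | h3 | h3
      · exact Or.inl (Or.inl h3)
      · exact Or.inl (Or.inr ⟨h3.1, h3.2.2.1, h3.2.1, h3.2.2.2⟩)
      · exact Or.inr (Or.inl h3)
      · exact Or.inr (Or.inr ⟨h3.1, h3.2.2.1, h3.2.1, h3.2.2.2⟩)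
    intro a ha b hb c hc d hd hab hcd h1 h2 h3 h4
    rcases Finset.mem_insert.1 ha with rfl | ha'
    · -- a = v
      rcases Finset.mem_insert.1 hb with rfl | hb'
      · exact absurd hab (G.irrefl)
      rcases Finset.mem_insert.1 hc with rfl | hc'
      · exact absurd rfl h1
      rcases Finset.mem_insert.1 hd with rfl | hd'
      · exact absurd rfl h2
      exact key b hb' hab c hc' d hd' hcd h3 h4
    rcases Finset.mem_insert.1 hb with rfl | hb'
    · rcases Finset.mem_insert.1 hc with rfl | hc'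
      · exact absurd rfl h3
      rcases Finset.mem_insert.1 hd with rfl | hd'
      · exact absurd rfl h4
      exact (key a ha' hab.symm c hc' d hd' hcd h1 h2).imp Sep.swap_left Sep.swap_left
    rcases Finset.mem_insert.1 hc with rfl | hc'
    · rcases Finset.mem_insert.1 hd with rfl | hd'
      · exact absurd hcd (G.irrefl)
      exact (key d hd' hcd a ha' b hb' hab h2.symm h4.symm).imp Sep.comm Sep.comm
    rcases Finset.mem_insert.1 hd with rfl | hd'
    · exact (key c hc' hcd.symm a ha' b hb' hab h1.symm h3.symm).imp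
        (fun h => h.swap_left.comm) (fun h => h.swap_left.comm)
    · have := h.sep a ha' b hb' c hc' d hd' hab hcd h1 h2 h3 h4
      unfold Sep at this ⊢
      rw [Function.update_of_ne (hne ha'), Function.update_of_ne (hne hb'),
        Function.update_of_ne (hne hc'), Function.update_of_ne (hne hd'),
        Function.update_of_ne (hne ha'), Function.update_of_ne (hne hb'),
        Function.update_of_ne (hne hc'), Function.update_of_ne (hne hd')]
      exact this
  · have key : ∀ z ∈ W, G.Adj v z → ∀ w ∈ W, w ∉ S → w ≠ z →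
        Sep (Function.update f v m) v z w w ∨ Sep (Function.update g v m') v z w w := by
      intro z hz hvz w hw hwS h1
      unfold Sep
      rw [Function.update_self, Function.update_self, Function.update_of_ne (hne hz),
        Function.update_of_ne (hne hw), Function.update_of_ne (hne hz),
        Function.update_of_ne (hne hw)]
      rcases hout z hz hvz w hw hwS h1 with h3 | h3 | h3 | h3
      · exact Or.inl (Or.inl ⟨h3.1, h3.1, h3.2, h3.2⟩)
      · exact Or.inl (Or.inr ⟨h3.1, h3.2, h3.1, h3.2⟩)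
      · exact Or.inr (Or.inl ⟨h3.1, h3.1, h3.2, h3.2⟩)
      · exact Or.inr (Or.inr ⟨h3.1, h3.2, h3.1, h3.2⟩)
    intro a ha b hb w hw hwS hab h1 h2
    rcases Finset.mem_insert.1 hw with rfl | hw'
    · exact absurd hvS hwS
    rcases Finset.mem_insert.1 ha with rfl | ha'
    · rcases Finset.mem_insert.1 hb with rfl | hb'
      · exact absurd hab (G.irrefl)
      exact key b hb' hab w hw' hwS h2
    rcases Finset.mem_insert.1 hb with rfl | hb'
    · exact (key a ha' hab.symm w hw' hwS h1).imp Sep.swap_left Sep.swap_left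
    · have := h.out a ha' b hb' w hw' hwS hab h1 h2
      unfold Sep at this ⊢
      rw [Function.update_of_ne (hne ha'), Function.update_of_ne (hne hb'),
        Function.update_of_ne (hne hw'),
        Function.update_of_ne (hne ha'), Function.update_of_ne (hne hb'),
        Function.update_of_ne (hne hw')]
      exact this

/-- a value just above `f z` -/
theorem exists_above (W : Finset V) (f : V → ℝ) (z : V) : ∃ m : ℝ, f z < m ∧
    (∀ w ∈ W, f z < f w → m < f w) ∧ ∀ w ∈ W, f w ≠ m := by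
  obtain ⟨m, h1, h2, h3⟩ := exists_real {f z} ((W.filter fun w => f z < f w).image f) (W.image f)
    (by
      intro x hx y hy
      rw [Finset.mem_singleton] at hx
      subst hx
      obtain ⟨w, hw, rfl⟩ := Finset.mem_image.1 hy
      exact (Finset.mem_filter.1 hw).2)
  exact ⟨m, h1 _ (Finset.mem_singleton_self _), fun w hw hzw =>
    h2 _ (Finset.mem_image_of_mem f (Finset.mem_filter.2 ⟨hw, hzw⟩)),
    fun w hw he => h3 (he ▸ Finset.mem_image_of_mem f hw)⟩

/-- a value just below `f z` -/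
theorem exists_below (W : Finset V) (f : V → ℝ) (z : V) : ∃ m : ℝ, m < f z ∧
    (∀ w ∈ W, f w < f z → f w < m) ∧ ∀ w ∈ W, f w ≠ m := by
  obtain ⟨m, h1, h2, h3⟩ := exists_above W (fun v => -f v) z
  refine ⟨-m, by linarith, fun w hw hwz => ?_, fun w hw he => h3 w hw ?_⟩
  · have := h2 w hw (by linarith)
    linarith
  · show -f w = m
    rw [he]; ring

/-- inserting an isolated vertex -/
theorem Inv.isolated [DecidableEq V] {G : SimpleGraph V} {S : Set V} {W : Finset V} {f g : V → ℝ}
    (h : Inv G S W f g) {v : V} (hv : v ∉ W) (hvS : v ∈ S) (hN : ∀ w ∈ W, ¬ G.Adj v w) :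
    ∃ f' g' : V → ℝ, Inv G S (Insert.insert v W) f' g' := by
  obtain ⟨m, -, -, h1⟩ := exists_above W f v
  obtain ⟨m', -, -, h2⟩ := exists_above W g v
  exact h.insert hv hvS m m' h1 h2 (fun z hz hvz => absurd hvz (hN z hz))
    (fun z hz hvz => absurd hvz (hN z hz))

/-- inserting a vertex of degree one -/
theorem Inv.pendant [DecidableEq V] {G : SimpleGraph V} {S : Set V} {W : Finset V} {f g : V → ℝ}
    (h : Inv G S W f g) {v b : V} (hv : v ∉ W) (hvS : v ∈ S) (hb : b ∈ W) (hbS : b ∉ S)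
    (hN : ∀ w ∈ W, G.Adj v w → w = b) :
    ∃ f' g' : V → ℝ, Inv G S (Insert.insert v W) f' g' := by
  obtain ⟨m, h0, h1, h2⟩ := exists_above W f b
  obtain ⟨m', k0, k1, k2⟩ := exists_above W g b
  refine h.insert hv hvS m m' h2 k2 ?_ ?_
  · intro z hz hvz p hp q hq hpq hzp hzq
    obtain rfl := hN z hz hvz
    rcases h.out p hp q hq z hz hbS hpq hzp hzq with (h3 | h3) | (h3 | h3)
    · exact Or.inr (Or.inl ⟨h3.1.trans h0, h3.2.2.1.trans h0, h3.1, h3.2.2.1⟩)
    · exact Or.inl ⟨h1 p hp h3.1, h1 q hq h3.2.1, h3.1, h3.2.1⟩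
    · exact Or.inr (Or.inr (Or.inr ⟨h3.1.trans k0, h3.2.2.1.trans k0, h3.1, h3.2.2.1⟩))
    · exact Or.inr (Or.inr (Or.inl ⟨k1 p hp h3.1, k1 q hq h3.2.1, h3.1, h3.2.1⟩))
  · intro z hz hvz w hw _ hwz
    obtain rfl := hN z hz hvz
    have h3 : f w ≠ f z := fun he => hwz (h.finj w hw z hz he)
    rcases lt_or_gt_of_ne h3 with h4 | h4
    · exact Or.inr (Or.inl ⟨h4.trans h0, h4⟩)
    · exact Or.inl ⟨h1 w hw h4, h4⟩

/-- inserting a vertex of degree two whose neighbours are adjacent -/
theorem Inv.two_aux [DecidableEq V] {G : SimpleGraph V} {S : Set V} {W : Finset V} {f g : V → ℝ}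
    (h : Inv G S W f g) {v b c : V} (hv : v ∉ W) (hvS : v ∈ S) (hb : b ∈ W) (hc : c ∈ W)
    (hbS : b ∉ S) (hcS : c ∉ S) (hbc : G.Adj b c)
    (hN : ∀ w ∈ W, G.Adj v w → w = b ∨ w = c) (hf : f b < f c) (hg : g b < g c) :
    ∃ f' g' : V → ℝ, Inv G S (Insert.insert v W) f' g' := by
  classical
  obtain ⟨zf, hzf, hzfmin⟩ := Finset.exists_min_image
    (Insert.insert c (W.filter fun d => G.Adj c d ∧ f b < f d ∧ f d < f c ∧ g d < g b)) f
    ⟨c, Finset.mem_insert_self _ _⟩
  obtain ⟨zg, hzg, hzgmax⟩ := Finset.exists_max_image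
    (Insert.insert b (W.filter fun d => G.Adj b d ∧ f c < f d ∧ g b < g d ∧ g d < g c)) g
    ⟨b, Finset.mem_insert_self _ _⟩
  obtain ⟨m, h0, h1, h2⟩ := exists_below W f zf
  obtain ⟨m', k0, k1, k2⟩ := exists_above W g zg
  have hzfc : f zf ≤ f c := hzfmin c (Finset.mem_insert_self _ _)
  have hbzf : f b < f zf := by
    rcases Finset.mem_insert.1 hzf with rfl | h3
    · exact hf
    · exact (Finset.mem_filter.1 h3).2.2.1
  have hzgb : g b ≤ g zg := hzgmax b (Finset.mem_insert_self _ _)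
  have hzgc : g zg < g c := by
    rcases Finset.mem_insert.1 hzg with rfl | h3
    · exact hg
    · exact (Finset.mem_filter.1 h3).2.2.2.2
  have e1 : f b < m := h1 b hb hbzf
  have e2 : m < f c := h0.trans_le hzfc
  have e3 : g b < m' := hzgb.trans_lt k0
  have e4 : m' < g c := k1 c hc hzgc
  have hbc' := hbc.ne
  refine h.insert hv hvS m m' h2 k2 ?_ ?_
  · -- edges
    have caseB : ∀ d ∈ W, G.Adj b d → d ≠ c → ((f d < m ∧ f b < m ∧ f d < f c ∧ f b < f c) ∨
        (g d < m' ∧ g b < m' ∧ g d < g c ∧ g b < g c)) := by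
      intro d hd hbd hdc
      have hdb : d ≠ b := hbd.ne'
      have o : f d < f c ∨ g d < g c := by
        rcases h.out b hb d hd c hc hcS hbd hbc'.symm hdc.symm with (h3 | h3) | (h3 | h3)
        · exact Or.inl h3.2.2.1
        · exact absurd h3.1 (not_lt.2 hf.le)
        · exact Or.inr h3.2.2.1
        · exact absurd h3.1 (not_lt.2 hg.le)
      have n1 : f d ≠ f b := fun he => hdb (h.finj d hd b hb he)
      have n2 : g d ≠ g b := fun he => hdb (h.ginj d hd b hb he)
      have n3 : f d ≠ f c := fun he => hdc (h.finj d hd c hc he)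
      rcases lt_or_gt_of_ne n1 with h3 | h3
      · exact Or.inl ⟨h3.trans e1, e1, h3.trans hf, hf⟩
      rcases lt_or_gt_of_ne n2 with h4 | h4
      · exact Or.inr ⟨h4.trans e3, e3, h4.trans hg, hg⟩
      rcases lt_or_gt_of_ne n3 with h5 | h5
      · -- to the left of `c`
        left
        refine ⟨h1 d hd ?_, e1, h5, hf⟩
        rcases Finset.mem_insert.1 hzf with rfl | h6
        · exact h5
        · obtain ⟨hzW, h7, h8, h9, h10⟩ := Finset.mem_filter.1 h6
          have hdz : d ≠ zf := fun he => by rw [he] at h4; linarith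
          have hbz : b ≠ zf := fun he => by rw [← he] at h8; linarith
          rcases h.sep b hb d hd c hc zf hzW hbd h7 hbc' hbz hdc hdz with (h11 | h11) | (h11 | h11)
          · exact h11.2.2.2
          · linarith [h11.1]
          · linarith [h11.2.1]
          · linarith [h11.1]
      · -- to the right of `c`
        have h6 : g d < g c := by
          rcases o with o | o
          · linarith
          · exact o
        right
        have := hzgmax d (Finset.mem_insert_of_mem (Finset.mem_filter.2 ⟨hd, hbd, h5, h4, h6⟩))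
        exact ⟨this.trans_lt k0, e3, h6, hg⟩
    have caseC : ∀ d ∈ W, G.Adj c d → d ≠ b → ((m < f d ∧ m < f c ∧ f b < f d ∧ f b < f c) ∨
        (m' < g d ∧ m' < g c ∧ g b < g d ∧ g b < g c)) := by
      intro d hd hcd hdb
      have hdc : d ≠ c := hcd.ne'
      have o : f b < f d ∨ g b < g d := by
        rcases h.out c hc d hd b hb hbS hcd hbc' hdb.symm with (h3 | h3) | (h3 | h3)
        · exact absurd h3.1 (not_lt.2 hf.le)
        · exact Or.inl h3.2.1
        · exact absurd h3.1 (not_lt.2 hg.le)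
        · exact Or.inr h3.2.1
      have n1 : f d ≠ f c := fun he => hdc (h.finj d hd c hc he)
      have n2 : g d ≠ g c := fun he => hdc (h.ginj d hd c hc he)
      have n3 : g d ≠ g b := fun he => hdb (h.ginj d hd b hb he)
      rcases lt_or_gt_of_ne n1 with h3 | h3
      swap
      · exact Or.inl ⟨e2.trans h3, e2, hf.trans h3, hf⟩
      rcases lt_or_gt_of_ne n2 with h4 | h4
      swap
      · exact Or.inr ⟨e4.trans h4, e4, hg.trans h4, hg⟩
      rcases lt_or_gt_of_ne n3 with h5 | h5
      · -- below `b`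
        have h6 : f b < f d := by
          rcases o with o | o
          · exact o
          · linarith
        left
        have := hzfmin d (Finset.mem_insert_of_mem (Finset.mem_filter.2 ⟨hd, hcd, h6, h3, h5⟩))
        exact ⟨h0.trans_le this, e2, h6, hf⟩
      · right
        refine ⟨k1 d hd ?_, e4, h5, hg⟩
        rcases Finset.mem_insert.1 hzg with rfl | h6
        · exact h5
        · obtain ⟨hzW, h7, h8, h9, h10⟩ := Finset.mem_filter.1 h6
          have hdz : zg ≠ d := fun he => by rw [he] at h8; linarith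
          have hcz : zg ≠ c := fun he => by rw [he] at h8; linarith
          rcases h.sep b hb zg hzW c hc d hd h7 hcd hbc' hdb.symm hcz hdz with
            (h11 | h11) | (h11 | h11)
          · linarith [h11.2.2.1]
          · linarith [h11.1]
          · exact h11.2.2.2
          · linarith [h11.1]
    intro z hz hvz p hp q hq hpq hzp hzq
    rcases hN z hz hvz with rfl | rfl
    · -- the edge `v b`
      by_cases hpc : p = c
      · subst hpc
        rcases caseC q hq hpq hzq.symm with ⟨a1, a2, a3, a4⟩ | ⟨a1, a2, a3, a4⟩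
        · exact Or.inl ⟨a2, a1, a4, a3⟩
        · exact Or.inr (Or.inr (Or.inl ⟨a2, a1, a4, a3⟩))
      by_cases hqc : q = c
      · subst hqc
        rcases caseC p hp hpq.symm hzp.symm with ⟨a1, a2, a3, a4⟩ | ⟨a1, a2, a3, a4⟩
        · exact Or.inl ⟨a1, a2, a3, a4⟩
        · exact Or.inr (Or.inr (Or.inl ⟨a1, a2, a3, a4⟩))
      rcases h.sep z hz c hc p hp q hq hbc hpq hzp hzq (Ne.symm hpc) (Ne.symm hqc) with
        (h3 | h3) | (h3 | h3)
      · exact Or.inl ⟨e2.trans h3.2.2.1, e2.trans h3.2.2.2, h3.1, h3.2.1⟩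
      · exact Or.inr (Or.inl ⟨h3.1.trans e1, h3.2.2.1.trans e1, h3.1, h3.2.2.1⟩)
      · exact Or.inr (Or.inr (Or.inl ⟨e4.trans h3.2.2.1, e4.trans h3.2.2.2, h3.1, h3.2.1⟩))
      · exact Or.inr (Or.inr (Or.inr ⟨h3.1.trans e3, h3.2.2.1.trans e3, h3.1, h3.2.2.1⟩))
    · -- the edge `v c`
      by_cases hpb : p = b
      · subst hpb
        rcases caseB q hq hpq hzq.symm with ⟨a1, a2, a3, a4⟩ | ⟨a1, a2, a3, a4⟩
        · exact Or.inr (Or.inl ⟨a2, a1, a4, a3⟩)
        · exact Or.inr (Or.inr (Or.inr ⟨a2, a1, a4, a3⟩))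
      by_cases hqb : q = b
      · subst hqb
        rcases caseB p hp hpq.symm hzp.symm with ⟨a1, a2, a3, a4⟩ | ⟨a1, a2, a3, a4⟩
        · exact Or.inr (Or.inl ⟨a1, a2, a3, a4⟩)
        · exact Or.inr (Or.inr (Or.inr ⟨a1, a2, a3, a4⟩))
      rcases h.sep b hb z hz p hp q hq hbc hpq (Ne.symm hpb) (Ne.symm hqb) hzp hzq with
        (h3 | h3) | (h3 | h3)
      · exact Or.inl ⟨e2.trans h3.2.2.1, e2.trans h3.2.2.2, h3.2.2.1, h3.2.2.2⟩
      · exact Or.inr (Or.inl ⟨h3.1.trans e1, h3.2.2.1.trans e1, h3.2.1, h3.2.2.2⟩)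
      · exact Or.inr (Or.inr (Or.inl ⟨e4.trans h3.2.2.1, e4.trans h3.2.2.2, h3.2.2.1, h3.2.2.2⟩))
      · exact Or.inr (Or.inr (Or.inr ⟨h3.1.trans e3, h3.2.2.1.trans e3, h3.2.1, h3.2.2.2⟩))
  · intro z hz hvz w hw hwS hwz
    rcases hN z hz hvz with rfl | rfl
    · by_cases hwc : w = c
      · subst hwc
        exact Or.inl ⟨e2, hf⟩
      rcases h.out z hz c hc w hw hwS hbc hwz hwc with (h3 | h3) | (h3 | h3)
      · exact Or.inl ⟨e2.trans h3.2.2.1, h3.1⟩
      · exact Or.inr (Or.inl ⟨h3.1.trans e1, h3.1⟩)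
      · exact Or.inr (Or.inr (Or.inl ⟨e4.trans h3.2.2.1, h3.1⟩))
      · exact Or.inr (Or.inr (Or.inr ⟨h3.1.trans e3, h3.1⟩))
    · by_cases hwb : w = b
      · subst hwb
        exact Or.inr (Or.inl ⟨e1, hf⟩)
      rcases h.out b hb z hz w hw hwS hbc hwb hwz with (h3 | h3) | (h3 | h3)
      · exact Or.inl ⟨e2.trans h3.2.2.1, h3.2.2.1⟩
      · exact Or.inr (Or.inl ⟨h3.1.trans e1, h3.2.1⟩)
      · exact Or.inr (Or.inr (Or.inl ⟨e4.trans h3.2.2.1, h3.2.2.1⟩))
      · exact Or.inr (Or.inr (Or.inr ⟨h3.1.trans e3, h3.2.1⟩))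

theorem Inv.two [DecidableEq V] {G : SimpleGraph V} {S : Set V} {W : Finset V} {f g : V → ℝ}
    (h : Inv G S W f g) {v b c : V} (hv : v ∉ W) (hvS : v ∈ S) (hb : b ∈ W) (hc : c ∈ W)
    (hbS : b ∉ S) (hcS : c ∉ S) (hbc : G.Adj b c)
    (hN : ∀ w ∈ W, G.Adj v w → w = b ∨ w = c) :
    ∃ f' g' : V → ℝ, Inv G S (Insert.insert v W) f' g' := by
  have n1 : f b ≠ f c := fun he => hbc.ne (h.finj b hb c hc he)
  have n2 : g b ≠ g c := fun he => hbc.ne (h.ginj b hb c hc he)
  rcases lt_or_gt_of_ne n1 with h1 | h1 <;> rcases lt_or_gt_of_ne n2 with h2 | h2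
  · exact h.two_aux hv hvS hb hc hbS hcS hbc hN h1 h2
  · obtain ⟨f', g', h'⟩ := h.negg.two_aux hv hvS hb hc hbS hcS hbc hN h1 (neg_lt_neg h2)
    exact ⟨f', _, h'.negg⟩
  · obtain ⟨f', g', h'⟩ := h.negg.two_aux hv hvS hc hb hcS hbS hbc.symm
      (fun w hw hvw => (hN w hw hvw).symm) h1 (neg_lt_neg h2)
    exact ⟨f', _, h'.negg⟩
  · exact h.two_aux hv hvS hc hb hcS hbS hbc.symm (fun w hw hvw => (hN w hw hvw).symm) h1 h2

end Pool.Agent.E8helper59.SD
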