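import Pool.Agent.E8helper59.SD.Ins

set_option autoImplicit false

/-!
# Separation dimension at most two and contact representations by rectangles
-/

namespace Pool.Agent.E8helper59.SD

variable {V : Type}

/-- Two pairs of vertices `a, b` and `c, d` are separated by the linear order `σ`. -/
def Separates (σ : LinearOrder V) (a b c d : V) : Prop :=
  (σ.lt a c ∧ σ.lt a d ∧ σ.lt b c ∧ σ.lt b d) ∨ (σ.lt c a ∧ σ.lt c b ∧ σ.lt d a ∧ σ.lt d b)

/-- The separation dimension of `G` is at most `k`: there are `k` linear orders of the vertices such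
that any two disjoint edges are separated by one of them. -/
def SepDimLE (G : SimpleGraph V) (k : ℕ) : Prop :=
  ∃ σ : Fin k → LinearOrder V, ∀ a b c d : V, G.Adj a b → G.Adj c d → a ≠ c → a ≠ d → b ≠ c →
    b ≠ d → ∃ i, Separates (σ i) a b c d

/-- The vertex `v` is redundant: all its neighbours are ends of one edge that does not contain
`v`. -/
def Redundant (G : SimpleGraph V) (v : V) : Prop :=
  ∃ b c : V, G.Adj b c ∧ v ≠ b ∧ v ≠ c ∧ ∀ w, G.Adj v w → w = b ∨ w = c

theorem exists_real_of_order [Finite V] (σ : LinearOrder V) :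
    ∃ f : V → ℝ, Function.Injective f ∧ ∀ u v, σ.lt u v ↔ f u < f v := by
  classical
  cases nonempty_fintype V
  letI := σ
  have hlt : ∀ u v : V, u < v → ((Finset.univ.filter fun w => w < u).card : ℝ) <
      (Finset.univ.filter fun w => w < v).card := by
    intro u v huv
    rw [Nat.cast_lt]
    apply Finset.card_lt_card
    rw [Finset.ssubset_iff_of_subset]
    · exact ⟨u, Finset.mem_filter.2 ⟨Finset.mem_univ _, huv⟩,
        fun hy => lt_irrefl _ (Finset.mem_filter.1 hy).2⟩
    · intro z hz
      rw [Finset.mem_filter] at hz ⊢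
      exact ⟨hz.1, hz.2.trans huv⟩
  refine ⟨fun v => ((Finset.univ.filter fun w => w < v).card : ℝ), ?_, fun u v => ⟨hlt u v, ?_⟩⟩
  · intro u v huv
    by_contra hne
    rcases lt_or_gt_of_ne hne with h1 | h1
    · exact absurd huv (hlt u v h1).ne
    · exact absurd huv.symm (hlt v u h1).ne
  · intro h
    by_contra hc
    rcases (not_lt.1 hc).lt_or_eq with h1 | h1
    · exact absurd (hlt v u h1) (not_lt.2 h.le)
    · subst h1
      exact lt_irrefl _ h

theorem sepDimLE_two_iff [Finite V] (G : SimpleGraph V) : SepDimLE G 2 ↔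
    ∃ f g : V → ℝ, Function.Injective f ∧ Function.Injective g ∧
      ∀ a b c d : V, G.Adj a b → G.Adj c d → a ≠ c → a ≠ d → b ≠ c → b ≠ d →
        Sep f a b c d ∨ Sep g a b c d := by
  constructor
  · rintro ⟨σ, hσ⟩
    obtain ⟨f, hf1, hf2⟩ := exists_real_of_order (σ 0)
    obtain ⟨g, hg1, hg2⟩ := exists_real_of_order (σ 1)
    refine ⟨f, g, hf1, hg1, fun a b c d h1 h2 h3 h4 h5 h6 => ?_⟩
    obtain ⟨i, hi⟩ := hσ a b c d h1 h2 h3 h4 h5 h6
    unfold Separates at hi
    unfold Sep
    fin_cases i
    · left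
      simpa only [← hf2] using hi
    · right
      simpa only [← hg2] using hi
  · rintro ⟨f, g, hf, hg, h⟩
    classical
    refine ⟨![LinearOrder.lift' f hf, LinearOrder.lift' g hg], fun a b c d h1 h2 h3 h4 h5 h6 => ?_⟩
    rcases h a b c d h1 h2 h3 h4 h5 h6 with h7 | h7
    · exact ⟨0, h7⟩
    · exact ⟨1, h7⟩

/-- **Graphs of separation dimension at most two.** -/
theorem sepDim_iff [Finite V] (G : SimpleGraph V) (S : Set V) (h1 : ∀ v ∈ S, Redundant G v)
    (h2 : ∀ u ∈ S, ∀ v ∈ S, ¬ G.Adj u v)
    (h3 : ∀ v, Redundant G v → v ∉ S → ∃ u ∈ S, G.Adj v u) :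
    SepDimLE G 2 ↔ RectContact (G.induce (Sᶜ : Set V)) := by
  classical
  cases nonempty_fintype V
  rw [sepDimLE_two_iff]
  constructor
  · rintro ⟨f, g, hf, hg, hs⟩
    apply rect_of_strict
    refine ⟨fun v => f v.1, fun v => g v.1, fun u v huv => Subtype.ext (hf huv),
      fun u v huv => Subtype.ext (hg huv), ?_, ?_⟩
    · intro a b c d hab hcd a1 a2 a3 a4
      exact hs a.1 b.1 c.1 d.1 hab hcd (fun h => a1 (Subtype.ext h)) (fun h => a2 (Subtype.ext h))
        (fun h => a3 (Subtype.ext h)) (fun h => a4 (Subtype.ext h))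
    · intro a b w hab a1 a2
      have a1' : w.1 ≠ a.1 := fun h => a1 (Subtype.ext h)
      have a2' : w.1 ≠ b.1 := fun h => a2 (Subtype.ext h)
      have hab' : G.Adj a.1 b.1 := hab
      obtain ⟨d, hd, hda, hdb⟩ : ∃ d, G.Adj w.1 d ∧ d ≠ a.1 ∧ d ≠ b.1 := by
        by_cases hr : Redundant G w.1
        · obtain ⟨u, huS, hwu⟩ := h3 w.1 hr w.2
          exact ⟨u, hwu, fun h => a.2 (h ▸ huS), fun h => b.2 (h ▸ huS)⟩
        · unfold Redundant at hr
          push Not at hr
          obtain ⟨d, hd, e1, e2⟩ := hr a.1 b.1 hab' a1' a2'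
          exact ⟨d, hd, e1, e2⟩
      rcases hs a.1 b.1 w.1 d hab' hd a1'.symm hda.symm a2'.symm hdb.symm with
        (h5 | h5) | (h5 | h5)
      · exact Or.inl (Or.inl ⟨h5.1, h5.1, h5.2.2.1, h5.2.2.1⟩)
      · exact Or.inl (Or.inr ⟨h5.1, h5.2.1, h5.1, h5.2.1⟩)
      · exact Or.inr (Or.inl ⟨h5.1, h5.1, h5.2.2.1, h5.2.2.1⟩)
      · exact Or.inr (Or.inr ⟨h5.1, h5.2.1, h5.1, h5.2.1⟩)
  · intro hR
    obtain ⟨f0, g0, h0⟩ := strict_of_rect hR
    -- insert the vertices of `S`
    have key : ∀ R : Finset V, (∀ v ∈ R, v ∈ S) → ∃ f g : V → ℝ,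
        Inv G S ((Finset.univ.filter fun v => v ∉ S) ∪ R) f g := by
      intro R
      induction R using Finset.induction_on with
      | empty =>
        intro _
        refine ⟨fun v => if h : v ∈ (Sᶜ : Set V) then f0 ⟨v, h⟩ else 0,
          fun v => if h : v ∈ (Sᶜ : Set V) then g0 ⟨v, h⟩ else 0, ?_⟩
        have hmem : ∀ v, v ∈ ((Finset.univ.filter fun v => v ∉ S) ∪ (∅ : Finset V)) →
            v ∈ (Sᶜ : Set V) := by
          intro v hv
          simpa using hv
        constructor
        · intro u hu v hv huv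
          simp only [dif_pos (hmem u hu), dif_pos (hmem v hv)] at huv
          exact congrArg Subtype.val (h0.finj huv)
        · intro u hu v hv huv
          simp only [dif_pos (hmem u hu), dif_pos (hmem v hv)] at huv
          exact congrArg Subtype.val (h0.ginj huv)
        · intro a ha b hb c hc d hd hab hcd a1 a2 a3 a4
          unfold Sep
          simp only [dif_pos (hmem a ha), dif_pos (hmem b hb), dif_pos (hmem c hc),
            dif_pos (hmem d hd)]
          exact h0.sep ⟨a, hmem a ha⟩ ⟨b, hmem b hb⟩ ⟨c, hmem c hc⟩ ⟨d, hmem d hd⟩ hab hcd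
            (fun h => a1 (congrArg Subtype.val h)) (fun h => a2 (congrArg Subtype.val h))
            (fun h => a3 (congrArg Subtype.val h)) (fun h => a4 (congrArg Subtype.val h))
        · intro a ha b hb w hw _ hab a1 a2
          unfold Sep
          simp only [dif_pos (hmem a ha), dif_pos (hmem b hb), dif_pos (hmem w hw)]
          exact h0.out ⟨a, hmem a ha⟩ ⟨b, hmem b hb⟩ ⟨w, hmem w hw⟩ hab
            (fun h => a1 (congrArg Subtype.val h)) (fun h => a2 (congrArg Subtype.val h))
      | insert v R hvR ih =>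
        intro hR'
        obtain ⟨f, g, hI⟩ := ih (fun u hu => hR' u (Finset.mem_insert_of_mem hu))
        have hvS : v ∈ S := hR' v (Finset.mem_insert_self _ _)
        have hvW : v ∉ (Finset.univ.filter fun v => v ∉ S) ∪ R := by
          simp [hvS, hvR]
        have hnS : ∀ w, G.Adj v w → w ∉ S := fun w hvw hw => h2 v hvS w hw hvw
        have hW : ∀ w, w ∉ S → w ∈ (Finset.univ.filter fun v => v ∉ S) ∪ R := by
          intro w hw
          simp [hw]
        rw [Finset.union_insert]
        obtain ⟨b, c, hbc, hvb, hvc, hN⟩ := h1 v hvS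
        by_cases e1 : G.Adj v b
        · by_cases e2 : G.Adj v c
          · exact hI.two hvW hvS (hW b (hnS b e1)) (hW c (hnS c e2)) (hnS b e1) (hnS c e2) hbc
              (fun w _ hvw => hN w hvw)
          · refine hI.pendant hvW hvS (hW b (hnS b e1)) (hnS b e1) (fun w _ hvw => ?_)
            rcases hN w hvw with h | h
            · exact h
            · exact absurd (h ▸ hvw) e2
        · by_cases e2 : G.Adj v c
          · refine hI.pendant hvW hvS (hW c (hnS c e2)) (hnS c e2) (fun w _ hvw => ?_)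
            rcases hN w hvw with h | h
            · exact absurd (h ▸ hvw) e1
            · exact h
          · refine hI.isolated hvW hvS (fun w _ hvw => ?_)
            rcases hN w hvw with h | h
            · exact e1 (h ▸ hvw)
            · exact e2 (h ▸ hvw)
    obtain ⟨f, g, hI⟩ := key (Finset.univ.filter fun v => v ∈ S) (fun v hv =>
      (Finset.mem_filter.1 hv).2)
    have hall : ∀ v, v ∈ (Finset.univ.filter fun v => v ∉ S) ∪ (Finset.univ.filter fun v => v ∈ S) := by
      intro v
      by_cases hv : v ∈ S <;> simp [hv]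
    exact ⟨f, g, fun u v huv => hI.finj u (hall u) v (hall v) huv,
      fun u v huv => hI.ginj u (hall u) v (hall v) huv,
      fun a b c d hab hcd a1 a2 a3 a4 => hI.sep a (hall a) b (hall b) c (hall c) d (hall d)
        hab hcd a1 a2 a3 a4⟩

end Pool.Agent.E8helper59.SD
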