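import Mathlib

set_option autoImplicit false

/-!
# Ordering interior-disjoint rectangles along a family of increasing curves
-/

namespace Pool.Agent.E8helper59.SD

/-- A family of closed axis-parallel rectangles `[l v, r v] × [b v, t v]` with pairwise disjoint
interiors. -/
structure Rects {V : Type} (l r b t : V → ℝ) : Prop where
  lr : ∀ v, l v < r v
  bt : ∀ v, b v < t v
  disj : ∀ u v, u ≠ v → r u ≤ l v ∨ r v ≤ l u ∨ t u ≤ b v ∨ t v ≤ b u

/-- `u` has to come before `v` in the order of the increasing diagonals, from the upper left to the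
lower right. -/
def Before {V : Type} (l r b t : V → ℝ) (u v : V) : Prop :=
  (r u ≤ l v ∧ b v ≤ t u ∧ (r u < l v ∨ b v < t u)) ∨ (t v ≤ b u ∧ l u ≤ r v)

/-- A real number between two finite sets of real numbers, outside a third one. -/
theorem exists_real (lo hi S : Finset ℝ) (h : ∀ x ∈ lo, ∀ y ∈ hi, x < y) :
    ∃ m : ℝ, (∀ x ∈ lo, x < m) ∧ (∀ y ∈ hi, m < y) ∧ m ∉ S := by
  obtain ⟨m, hm1, hm2⟩ := Order.exists_between_finsets lo hi h
  obtain ⟨m', hm1', hm2'⟩ := Order.exists_between_finsets (insert m lo) hi (by
    intro x hx y hy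
    rcases Finset.mem_insert.1 hx with rfl | hx
    · exact hm2 y hy
    · exact h x hx y hy)
  have hmm : m < m' := hm1' m (Finset.mem_insert_self _ _)
  have hinf : (Set.Ioo m m').Infinite := Set.Ioo_infinite hmm
  obtain ⟨z, hz, hzS⟩ := hinf.exists_notMem_finset S
  refine ⟨z, fun x hx => (hm1 x hx).trans hz.1, fun y hy => hz.2.trans (hm2' y hy), hzS⟩

/-- **The order lemma.** -/
theorem exists_order {V : Type} [DecidableEq V] {l r b t : V → ℝ} (S : Finset V)
    (hl : ∀ v ∈ S, l v < r v) (hb : ∀ v ∈ S, b v < t v)
    (hd : ∀ u ∈ S, ∀ v ∈ S, u ≠ v → r u ≤ l v ∨ r v ≤ l u ∨ t u ≤ b v ∨ t v ≤ b u) :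
    ∃ κ : V → ℝ, (∀ u ∈ S, ∀ v ∈ S, κ u = κ v → u = v) ∧
      ∀ u ∈ S, ∀ v ∈ S, u ≠ v → Before l r b t u v → κ u < κ v := by
  classical
  induction S using Finset.induction_on_max_value l with
  | empty => exact ⟨fun _ => 0, by simp, by simp⟩
  | insert v S hv hmax ih =>
    obtain ⟨κ, hinj, hκ⟩ := ih (fun u hu => hl u (Finset.mem_insert_of_mem hu))
      (fun u hu => hb u (Finset.mem_insert_of_mem hu))
      (fun u hu w hw => hd u (Finset.mem_insert_of_mem hu) w (Finset.mem_insert_of_mem hw))
    have hlv := hl v (Finset.mem_insert_self _ _)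
    have hbv := hb v (Finset.mem_insert_self _ _)
    obtain ⟨m, hm1, hm2, hm3⟩ := exists_real
      ((S.filter fun u => Before l r b t u v).image κ) ((S.filter fun u => Before l r b t v u).image κ)
      (S.image κ) (by
        intro x hx y hy
        simp only [Finset.mem_image, Finset.mem_filter] at hx hy
        obtain ⟨u, ⟨huS, hu⟩, rfl⟩ := hx
        obtain ⟨a, ⟨haS, ha⟩, rfl⟩ := hy
        have hlu := hmax u huS
        have hla := hmax a haS
        have h1 := hl u (Finset.mem_insert_of_mem huS)
        have h2 := hl a (Finset.mem_insert_of_mem haS)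
        have h3 := hb u (Finset.mem_insert_of_mem huS)
        have h4 := hb a (Finset.mem_insert_of_mem haS)
        -- `a` is below `v`
        have ha' : t a ≤ b v ∧ l v ≤ r a := by
          rcases ha with ⟨h, -, -⟩ | h
          · linarith
          · exact h
        have hne : u ≠ a := by
          rintro rfl
          rcases hu with ⟨h5, h6, h7⟩ | ⟨h5, h6⟩
          · rcases h7 with h7 | h7 <;> linarith [ha'.1, ha'.2]
          · linarith [ha'.1, ha'.2]
        refine hκ u huS a haS hne ?_
        rcases hu with ⟨h5, h6, h7⟩ | ⟨h5, h6⟩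
        · rcases le_or_gt (r u) (l a) with h8 | h8
          · left
            exact ⟨h8, by linarith [ha'.1], Or.inr (by linarith [ha'.1])⟩
          · right
            rcases hd u (Finset.mem_insert_of_mem huS) a (Finset.mem_insert_of_mem haS) hne with
              h | h | h | h
            · linarith
            · linarith [ha'.2]
            · linarith [ha'.1]
            · exact ⟨h, by linarith [ha'.2]⟩
        · right
          exact ⟨by linarith [ha'.1], by linarith [ha'.2]⟩)
    refine ⟨Function.update κ v m, ?_, ?_⟩
    · intro u hu w hw huw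
      rcases Finset.mem_insert.1 hu with rfl | hu' <;> rcases Finset.mem_insert.1 hw with rfl | hw'
      · rfl
      · exfalso
        have hne : w ≠ u := fun h => hv (h ▸ hw')
        rw [Function.update_self, Function.update_of_ne hne] at huw
        exact hm3 (huw ▸ Finset.mem_image_of_mem κ hw')
      · exfalso
        have hne : u ≠ w := fun h => hv (h ▸ hu')
        rw [Function.update_self, Function.update_of_ne hne] at huw
        exact hm3 (huw ▸ Finset.mem_image_of_mem κ hu')
      · have hne : u ≠ v := fun h => hv (h ▸ hu')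
        have hne' : w ≠ v := fun h => hv (h ▸ hw')
        rw [Function.update_of_ne hne, Function.update_of_ne hne'] at huw
        exact hinj u hu' w hw' huw
    · intro u hu w hw hne h
      rcases Finset.mem_insert.1 hu with rfl | hu' <;> rcases Finset.mem_insert.1 hw with rfl | hw'
      · exact absurd rfl hne
      · rw [Function.update_self, Function.update_of_ne hne.symm]
        exact hm2 _ (Finset.mem_image_of_mem κ (Finset.mem_filter.2 ⟨hw', h⟩))
      · rw [Function.update_self, Function.update_of_ne hne]
        exact hm1 _ (Finset.mem_image_of_mem κ (Finset.mem_filter.2 ⟨hu', h⟩))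
      · have hne1 : u ≠ v := fun h => hv (h ▸ hu')
        have hne2 : w ≠ v := fun h => hv (h ▸ hw')
        rw [Function.update_of_ne hne1, Function.update_of_ne hne2]
        exact hκ u hu' w hw' hne h

end Pool.Agent.E8helper59.SD
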