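import Pool.Agent.E8helper59.SD.Rect

set_option autoImplicit false

/-!
# Strictly suitable pairs give contact representations by rectangles
-/

namespace Pool.Agent.E8helper59.SD

variable {V : Type}

/-- `q` is above `p` -/
def Up (f g : V → ℝ) (p q : V) : Prop := f q < f p ∧ g p < g q

/-- bottom of `p` is at most the top of `q` -/
def Link (G : SimpleGraph V) (f g : V → ℝ) (p q : V) : Prop := p = q ∨ (G.Adj p q ∧ ¬ Up f g p q)

/-- bottom of `p` is less than the top of `q` -/
def SLink (G : SimpleGraph V) (f g : V → ℝ) (p q : V) : Prop :=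
  p = q ∨ (G.Adj p q ∧ ¬ Up f g p q ∧ ¬ Up f g q p)

theorem SLink.link {G : SimpleGraph V} {f g : V → ℝ} {p q : V} (h : SLink G f g p q) :
    Link G f g p q := h.imp id fun h => ⟨h.1, h.2.1⟩

theorem Up.irrefl {f g : V → ℝ} {p : V} (h : Up f g p p) : False := lt_irrefl _ h.1

theorem Up.trans {f g : V → ℝ} {p q s : V} (h : Up f g p q) (h' : Up f g q s) : Up f g p s :=
  ⟨h'.1.trans h.1, h.2.trans h'.2⟩

/-- a bad cycle of inequalities -/
structure Cyc (G : SimpleGraph V) (f g : V → ℝ) (n : ℕ) (P Q : ℕ → V) : Prop where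
  pos : 0 < n
  perP : ∀ i, P (i + n) = P i
  perQ : ∀ i, Q (i + n) = Q i
  link : ∀ i, Link G f g (P i) (Q i)
  up : ∀ i, Up f g (Q i) (P (i + 1))
  strict : ∃ i, SLink G f g (P i) (Q i)

theorem succ_mod {n : ℕ} (hn : 0 < n) (i : ℕ) :
    (i % n + 1 < n ∧ (i + 1) % n = i % n + 1) ∨ (i % n = n - 1 ∧ (i + 1) % n = 0) := by
  have hlt := Nat.mod_lt i hn
  rcases Nat.lt_or_ge (i % n + 1) n with h | h
  · refine Or.inl ⟨h, ?_⟩
    rw [Nat.add_mod, Nat.mod_eq_of_lt (a := 1) (by omega), Nat.mod_eq_of_lt h]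
  · have e0 : i % n = n - 1 := by omega
    refine Or.inr ⟨e0, ?_⟩
    rcases Nat.lt_or_ge 1 n with h' | h'
    · rw [Nat.add_mod, Nat.mod_eq_of_lt (a := 1) h', e0, Nat.sub_add_cancel hn, Nat.mod_self]
    · have : n = 1 := by omega
      subst this
      exact Nat.mod_one _

theorem mk_cyc {G : SimpleGraph V} {f g : V → ℝ} (n : ℕ) (A B : ℕ → V)
    (hn : 0 < n) (h1 : ∀ m < n, Link G f g (A m) (B m))
    (h2 : ∀ m, m + 1 < n → Up f g (B m) (A (m + 1)))
    (h3 : Up f g (B (n - 1)) (A 0))
    (h4 : ∃ m < n, SLink G f g (A m) (B m)) :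
    Cyc G f g n (fun i => A (i % n)) (fun i => B (i % n)) where
  pos := hn
  perP i := by simp
  perQ i := by simp
  link i := h1 _ (Nat.mod_lt _ hn)
  up i := by
    rcases succ_mod hn i with ⟨h, e⟩ | ⟨e0, e⟩
    · simp only [e]
      exact h2 _ h
    · simp only [e, e0]
      exact h3
  strict := by
    obtain ⟨m, hm, h⟩ := h4
    exact ⟨m, by simpa [Nat.mod_eq_of_lt hm] using h⟩

theorem Cyc.perP_mul {G : SimpleGraph V} {f g : V → ℝ} {n : ℕ} {P Q : ℕ → V}
    (h : Cyc G f g n P Q) (i k : ℕ) : P (i + k * n) = P i := by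
  induction k with
  | zero => simp
  | succ k ih => rw [Nat.succ_mul, ← Nat.add_assoc, h.perP, ih]

theorem Cyc.perQ_mul {G : SimpleGraph V} {f g : V → ℝ} {n : ℕ} {P Q : ℕ → V}
    (h : Cyc G f g n P Q) (i k : ℕ) : Q (i + k * n) = Q i := by
  induction k with
  | zero => simp
  | succ k ih => rw [Nat.succ_mul, ← Nat.add_assoc, h.perQ, ih]

/-- the strict link can be found in every window of length `n` -/
theorem Cyc.strict_window {G : SimpleGraph V} {f g : V → ℝ} {n : ℕ}
    {P Q : ℕ → V} (h : Cyc G f g n P Q) (s : ℕ) :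
    ∃ i, s ≤ i ∧ i < s + n ∧ SLink G f g (P i) (Q i) := by
  obtain ⟨i0, hi0⟩ := h.strict
  have hn := h.pos
  -- shift `i0` above `s`
  obtain ⟨i1, hi1, hs1⟩ : ∃ i1, s ≤ i1 ∧ SLink G f g (P i1) (Q i1) :=
    ⟨i0 + s * n, by nlinarith, by
      rw [h.perP_mul, h.perQ_mul]; exact hi0⟩
  refine ⟨s + (i1 - s) % n, by omega, ?_, ?_⟩
  · have := Nat.mod_lt (i1 - s) hn
    omega
  · have e : i1 = (s + (i1 - s) % n) + (i1 - s) / n * n := by
      have := Nat.mod_add_div (i1 - s) n
      rw [Nat.mul_comm] at this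
      omega
    rw [e, h.perP_mul, h.perQ_mul] at hs1
    exact hs1

/-- an arc of a cycle with a shortcut -/
theorem Cyc.arc {G : SimpleGraph V} {f g : V → ℝ} {n : ℕ} {P Q : ℕ → V}
    (h : Cyc G f g n P Q) (s len : ℕ) (hlen : 0 < len)
    (hc : Up f g (Q (s + len - 1)) (P s))
    (hs : ∃ i, s ≤ i ∧ i < s + len ∧ SLink G f g (P i) (Q i)) :
    ∃ P' Q', Cyc G f g len P' Q' := by
  have e : s + (len - 1) = s + len - 1 := by omega
  refine ⟨_, _, mk_cyc len (fun m => P (s + m)) (fun m => Q (s + m)) hlen (fun m _ => h.link _)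
    (fun m _ => h.up _) ?_ ?_⟩
  · simp only [e, Nat.add_zero]
    exact hc
  · obtain ⟨i, h1, h2, h3⟩ := hs
    exact ⟨i - s, by omega, by simpa [Nat.add_sub_cancel' h1] using h3⟩

/-- in a shortest bad cycle the links are disjoint -/
theorem Cyc.disjoint {G : SimpleGraph V} {f g : V → ℝ} {n : ℕ} {P Q : ℕ → V}
    (h : Cyc G f g n P Q) (hmin : ∀ m < n, ∀ P' Q', ¬ Cyc G f g m P' Q') {i j : ℕ} (hij : i < j)
    (hjn : j < i + n) : P i ≠ P j ∧ Q i ≠ Q j ∧ P j ≠ Q i ∧ P i ≠ Q j := by
  have key : ∀ i j, i < j → j < i + n → P j ≠ Q i := by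
    intro i j hij hjn he
    rcases Nat.eq_or_lt_of_le (Nat.succ_le_of_lt hij) with h1 | h1
    · have h2 := h.up i
      rw [← Nat.succ_eq_add_one, h1, he] at h2
      exact h2.irrefl
    · have h1' : i + 1 < j := h1
      refine hmin (j - i) (by omega) _ _ (mk_cyc (j - i) (fun m => P (i + 1 + m))
        (fun m => if m = j - i - 1 then P j else Q (i + 1 + m)) (by omega) ?_ ?_ ?_ ?_)
      · intro m hm
        by_cases hm' : m = j - i - 1
        · have e : i + 1 + m = j := by omega
          simp only [if_pos hm', e]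
          exact Or.inl rfl
        · simp only [if_neg hm']
          exact h.link _
      · intro m hm
        have hm' : m ≠ j - i - 1 := by omega
        simp only [if_neg hm']
        exact h.up (i + 1 + m)
      · simp only [if_pos, Nat.add_zero, he]
        exact h.up i
      · refine ⟨j - i - 1, by omega, ?_⟩
        have e : i + 1 + (j - i - 1) = j := by omega
        simp only [if_pos, e]
        exact Or.inl rfl
  refine ⟨fun he => ?_, fun he => ?_, key i j hij hjn, fun he => ?_⟩
  · obtain ⟨s, hs1, hs2, hs3⟩ := h.strict_window i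
    rcases Nat.lt_or_ge s j with h1 | h1
    · obtain ⟨P', Q', h2⟩ := h.arc i (j - i) (by omega) (by
        have := h.up (j - 1)
        rw [Nat.sub_add_cancel (by omega), ← he] at this
        have e : i + (j - i) - 1 = j - 1 := by omega
        rw [e]; exact this) ⟨s, hs1, by omega, hs3⟩
      exact hmin _ (by omega) _ _ h2
    · obtain ⟨P', Q', h2⟩ := h.arc j (i + n - j) (by omega) (by
        have := h.up (i + n - 1)
        rw [Nat.sub_add_cancel (by omega), h.perP, he] at this
        have e : j + (i + n - j) - 1 = i + n - 1 := by omega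
        rw [e]; exact this) ⟨s, h1, by omega, hs3⟩
      exact hmin _ (by omega) _ _ h2
  · obtain ⟨s, hs1, hs2, hs3⟩ := h.strict_window (i + 1)
    rcases Nat.lt_or_ge s (j + 1) with h1 | h1
    · obtain ⟨P', Q', h2⟩ := h.arc (i + 1) (j - i) (by omega) (by
        have e : i + 1 + (j - i) - 1 = j := by omega
        rw [e, ← he]
        exact h.up i) ⟨s, hs1, by omega, hs3⟩
      exact hmin _ (by omega) _ _ h2
    · obtain ⟨P', Q', h2⟩ := h.arc (j + 1) (i + n - j) (by omega) (by
        have e : j + 1 + (i + n - j) - 1 = i + n := by omega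
        rw [e, h.perQ, he]
        exact h.up j) ⟨s, h1, by omega, hs3⟩
      exact hmin _ (by omega) _ _ h2
  · have := key j (i + n) hjn (by omega)
    rw [h.perP] at this
    exact this he

theorem Strict.link_sep {G : SimpleGraph V} {f g : V → ℝ} (h : Strict G f g) {p q p' q' : V}
    (h1 : Link G f g p q) (h2 : Link G f g p' q') (a1 : p ≠ p') (a2 : p ≠ q') (a3 : q ≠ p')
    (a4 : q ≠ q') : Sep f p q p' q' ∨ Sep g p q p' q' := by
  rcases h1 with rfl | h1 <;> rcases h2 with rfl | h2
  · left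
    rcases lt_or_gt_of_ne (h.finj.ne a1) with h3 | h3
    · exact Or.inl ⟨h3, h3, h3, h3⟩
    · exact Or.inr ⟨h3, h3, h3, h3⟩
  · exact (h.out p' q' p h2.1 a1 a2).imp Sep.comm Sep.comm
  · exact h.out p q p' h1.1 a1.symm a3.symm
  · exact h.sep p q p' q' h1.1 h2.1 a1 a2 a3 a4

theorem no_cyc {G : SimpleGraph V} {f g : V → ℝ} (h : Strict G f g)
    (hf : ∀ u v, f u < f v → f u + 1 ≤ f v) (hg : ∀ u v, g u < g v → g u + 1 ≤ g v) :
    ∀ n P Q, ¬ Cyc G f g n P Q := by
  intro n
  induction n using Nat.strong_induction_on with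
  | _ n ih =>
  intro P Q hC
  have hn := hC.pos
  rcases Nat.lt_or_ge 1 n with hn1 | hn1
  · -- at least two links
    let l : ℕ → ℝ := fun i => min (f (P i)) (f (Q i)) - 1 / 4
    let r : ℕ → ℝ := fun i => max (f (P i)) (f (Q i)) + 1 / 4
    let b : ℕ → ℝ := fun i => min (g (P i)) (g (Q i)) - 1 / 4
    let t : ℕ → ℝ := fun i => max (g (P i)) (g (Q i)) + 1 / 4
    have hgap : ∀ (k : V → ℝ) (i j : ℕ), (∀ u v, k u < k v → k u + 1 ≤ k v) →
        (k (P i) < k (P j) ∧ k (P i) < k (Q j) ∧ k (Q i) < k (P j) ∧ k (Q i) < k (Q j)) →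
        max (k (P i)) (k (Q i)) + 1 / 4 ≤ min (k (P j)) (k (Q j)) - 1 / 4 := by
      intro k i j hk ⟨h1, h2, h3, h4⟩
      have h1 := hk _ _ h1
      have h2 := hk _ _ h2
      have h3 := hk _ _ h3
      have h4 := hk _ _ h4
      rcases max_cases (k (P i)) (k (Q i)) with ⟨e, -⟩ | ⟨e, -⟩ <;>
        rcases min_cases (k (P j)) (k (Q j)) with ⟨e', -⟩ | ⟨e', -⟩ <;> rw [e, e'] <;> linarith
    have hdis : ∀ i j, i < j → j < i + n →
        Sep f (P i) (Q i) (P j) (Q j) ∨ Sep g (P i) (Q i) (P j) (Q j) := by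
      intro i j h1 h2
      obtain ⟨a1, a2, a3, a4⟩ := hC.disjoint ih h1 h2
      exact h.link_sep (hC.link i) (hC.link j) a1 a4 a3.symm a2
    have hd' : ∀ i j, i < j → j < i + n → r i ≤ l j ∨ r j ≤ l i ∨ t i ≤ b j ∨ t j ≤ b i := by
      intro i j h1 h2
      rcases hdis i j h1 h2 with (h3 | h3) | (h3 | h3)
      · exact Or.inl (hgap f i j hf h3)
      · exact Or.inr (Or.inl (hgap f j i hf h3))
      · exact Or.inr (Or.inr (Or.inl (hgap g i j hg h3)))
      · exact Or.inr (Or.inr (Or.inr (hgap g j i hg h3)))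
    obtain ⟨κ, -, hκ⟩ := exists_order (l := l) (r := r) (b := b) (t := t) (Finset.range n)
      (fun i _ => by
        have := min_le_max (a := f (P i)) (b := f (Q i))
        simp only [l, r]; linarith)
      (fun i _ => by
        have := min_le_max (a := g (P i)) (b := g (Q i))
        simp only [b, t]; linarith)
      (fun i hi j hj hij => by
        rw [Finset.mem_range] at hi hj
        rcases Nat.lt_or_gt_of_ne hij with h1 | h1
        · exact hd' i j h1 (by omega)
        · rcases hd' j i h1 (by omega) with h2 | h2 | h2 | h2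
          · exact Or.inr (Or.inl h2)
          · exact Or.inl h2
          · exact Or.inr (Or.inr (Or.inr h2))
          · exact Or.inr (Or.inr (Or.inl h2)))
    -- the relation between consecutive links
    have hbef : ∀ i j, i ≠ j → i < n → j < n → Up f g (Q i) (P j) → Before l r b t j i := by
      intro i j hij hi hj hu
      have e1 : l j < r i := by
        have h1 := min_le_left (f (P j)) (f (Q j))
        have h2 := le_max_right (f (P i)) (f (Q i))
        have h3 := hu.1
        simp only [l, r]; linarith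
      have e2 : b i < t j := by
        have h1 := min_le_right (g (P i)) (g (Q i))
        have h2 := le_max_left (g (P j)) (g (Q j))
        have h3 := hu.2
        simp only [b, t]; linarith
      have e3 : r i ≤ l j ∨ r j ≤ l i ∨ t i ≤ b j ∨ t j ≤ b i := by
        rcases Nat.lt_or_gt_of_ne hij with h1 | h1
        · exact hd' i j h1 (by omega)
        · rcases hd' j i h1 (by omega) with h2 | h2 | h2 | h2
          · exact Or.inr (Or.inl h2)
          · exact Or.inl h2
          · exact Or.inr (Or.inr (Or.inr h2))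
          · exact Or.inr (Or.inr (Or.inl h2))
      rcases e3 with h1 | h1 | h1 | h1
      · linarith
      · exact Or.inl ⟨h1, e2.le, Or.inr e2⟩
      · exact Or.inr ⟨h1, e1.le⟩
      · linarith
    have hdec : ∀ i, i + 1 < n → κ (i + 1) < κ i := fun i hi =>
      hκ (i + 1) (Finset.mem_range.2 hi) i (Finset.mem_range.2 (by omega)) (by omega)
        (hbef i (i + 1) (by omega) (by omega) hi (hC.up i))
    have hlast : κ 0 < κ (n - 1) := by
      refine hκ 0 (Finset.mem_range.2 hn) (n - 1) (Finset.mem_range.2 (by omega)) (by omega)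
        (hbef (n - 1) 0 (by omega) (by omega) hn ?_)
      have := hC.up (n - 1)
      rw [Nat.sub_add_cancel hn] at this
      have e := hC.perP 0
      rw [Nat.zero_add] at e
      rwa [e] at this
    have hle : ∀ i, i < n → κ i ≤ κ 0 := by
      intro i
      induction i with
      | zero => intro _; exact le_rfl
      | succ i ih' => intro hi; exact (hdec i hi).le.trans (ih' (by omega))
    exact absurd hlast (not_lt.2 (hle (n - 1) (by omega)))
  · -- one link
    have hn' : n = 1 := by omega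
    subst hn'
    have hP : ∀ i, P (i + 1) = P i := hC.perP
    obtain ⟨i, hi⟩ := hC.strict
    have hu := hC.up i
    rw [hP] at hu
    rcases hi with hi | ⟨-, -, h3⟩
    · rw [hi] at hu
      exact hu.irrefl
    · exact h3 hu

end Pool.Agent.E8helper59.SD
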